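import Mathlib
import Pool.Agent.H.MP_96e181_an.Furst

set_option autoImplicit false

namespace Pool.Agent.H.MP_96e181_an.Mix

open MeasureTheory Set Metric
open scoped ENNReal

/-- Minus the logarithm of the mass of the ball of radius `r`. -/
noncomputable def phi (μ : Measure UnitAddCircle) (r : ℝ) (x : UnitAddCircle) : ℝ :=
  -Real.log (μ.real (ball x r))

/-- The entropy at scale `r`. -/
noncomputable def ent (μ : Measure UnitAddCircle) (r : ℝ) : ℝ := ∫ x, phi μ r x ∂μ

theorem measurable_ball {μ : Measure UnitAddCircle} [IsFiniteMeasure μ] (r : ℝ)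
    {A : Set UnitAddCircle} (hA : MeasurableSet A) :
    Measurable (fun x => μ (ball x r ∩ A)) := by
  have hS : MeasurableSet {z : UnitAddCircle × UnitAddCircle | dist z.2 z.1 < r ∧ z.2 ∈ A} := by
    apply MeasurableSet.inter
    · exact measurableSet_lt (measurable_snd.dist measurable_fst) measurable_const
    · exact measurable_snd hA
  exact measurable_measure_prodMk_left hS

theorem measurable_ball' {μ : Measure UnitAddCircle} [IsFiniteMeasure μ] (r : ℝ) :
    Measurable (fun x => μ (ball x r)) := by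
  simpa using measurable_ball (μ := μ) r (MeasurableSet.univ)

theorem lintegral_small {μ : Measure UnitAddCircle} {r : ℝ} {P A : Set UnitAddCircle}
    (hP : MeasurableSet P) (hA : MeasurableSet A) (hPr : ∀ x ∈ P, ∀ y ∈ P, dist y x < r) :
    ∫⁻ x in P ∩ A, (μ (ball x r ∩ A))⁻¹ ∂μ ≤ 1 := by
  calc ∫⁻ x in P ∩ A, (μ (ball x r ∩ A))⁻¹ ∂μ ≤ ∫⁻ x in P ∩ A, (μ (P ∩ A))⁻¹ ∂μ := by
        refine setLIntegral_mono' (hP.inter hA) (fun x hx => ?_)
        refine ENNReal.inv_le_inv.2 (measure_mono ?_)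
        exact fun y hy => ⟨hPr x hx.1 y hy.1, hy.2⟩
    _ = (μ (P ∩ A))⁻¹ * μ (P ∩ A) := by
        rw [setLIntegral_const]
    _ ≤ 1 := by
        rw [mul_comm]
        exact ENNReal.mul_inv_le_one _

theorem ball_cover {r : ℝ} (hr : 0 < r) (M : ℕ) (y : UnitAddCircle) :
    ball y (M * r) ⊆ ⋃ m : Fin (4 * M),
      ball (y + (((((m : ℕ) : ℝ) - 2 * M) * (r / 2) : ℝ) : UnitAddCircle)) (r / 2) := by
  intro x hx
  obtain ⟨u, hu, hun⟩ := exists_lift (x - y)
  have hun' : |u| < M * r := by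
    rw [hun, ← dist_eq_norm]; exact hx
  obtain ⟨h1, h2⟩ := abs_lt.1 hun'
  set k : ℤ := ⌊u / (r / 2)⌋ with hk
  have hr2 : 0 < r / 2 := by linarith
  have hk1 : (k : ℝ) * (r / 2) ≤ u := by
    have := Int.floor_le (u / (r / 2))
    rw [← hk, le_div_iff₀ hr2] at this
    exact this
  have hk2 : u < (k + 1) * (r / 2) := by
    have := Int.lt_floor_add_one (u / (r / 2))
    rw [← hk, div_lt_iff₀ hr2] at this
    exact this
  have hkl : -(2 * (M : ℤ)) ≤ k := by
    by_contra hcon
    push Not at hcon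
    have h3 : k + 1 ≤ -(2 * (M : ℤ)) := by omega
    have h4 : ((k : ℝ) + 1) ≤ -(2 * (M : ℝ)) := by exact_mod_cast h3
    nlinarith
  have hku : k < 2 * (M : ℤ) := by
    by_contra hcon
    push Not at hcon
    have h4 : (2 * (M : ℝ)) ≤ (k : ℝ) := by exact_mod_cast hcon
    nlinarith
  refine mem_iUnion.2 ⟨⟨(k + 2 * M).toNat, by omega⟩, ?_⟩
  have e : (((k + 2 * M).toNat : ℕ) : ℝ) = k + 2 * M := by
    have : (((k + 2 * M).toNat : ℕ) : ℤ) = k + 2 * M := Int.toNat_of_nonneg (by omega)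
    exact_mod_cast this
  rw [mem_ball]
  simp only
  rw [e]
  have e3 : x = y + (u : UnitAddCircle) := by rw [hu]; abel
  rw [e3, dist_add_left]
  have e4 : ((k : ℝ) + 2 * M - 2 * M) * (r / 2) = k * (r / 2) := by ring
  rw [e4]
  refine lt_of_le_of_lt (dist_coe_le _ _) ?_
  rw [abs_lt]
  constructor <;> linarith

theorem lintegral_ball {μ : Measure UnitAddCircle} {r : ℝ} (hr : 0 < r)
    {A : Set UnitAddCircle} (hA : MeasurableSet A) (M : ℕ) (y : UnitAddCircle) :
    ∫⁻ x in ball y (M * r) ∩ A, (μ (ball x r ∩ A))⁻¹ ∂μ ≤ 4 * M := by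
  have hsub : ball y (M * r) ∩ A ⊆ ⋃ m : Fin (4 * M),
      (ball (y + (((((m : ℕ) : ℝ) - 2 * M) * (r / 2) : ℝ) : UnitAddCircle)) (r / 2) ∩ A) := by
    intro x hx
    obtain ⟨m, hxm⟩ := mem_iUnion.1 (ball_cover hr M y hx.1)
    exact mem_iUnion.2 ⟨m, hxm, hx.2⟩
  calc ∫⁻ x in ball y (M * r) ∩ A, (μ (ball x r ∩ A))⁻¹ ∂μ
      ≤ ∫⁻ x in ⋃ m : Fin (4 * M),
      (ball (y + (((((m : ℕ) : ℝ) - 2 * M) * (r / 2) : ℝ) : UnitAddCircle)) (r / 2) ∩ A),
        (μ (ball x r ∩ A))⁻¹ ∂μ := lintegral_mono_set hsub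
    _ ≤ ∑' m : Fin (4 * M), ∫⁻ x in
      (ball (y + (((((m : ℕ) : ℝ) - 2 * M) * (r / 2) : ℝ) : UnitAddCircle)) (r / 2) ∩ A),
        (μ (ball x r ∩ A))⁻¹ ∂μ := lintegral_iUnion_le _ _
    _ ≤ ∑' m : Fin (4 * M), 1 := by
        refine ENNReal.tsum_le_tsum (fun m => ?_)
        refine lintegral_small measurableSet_ball hA (fun x hx z hz => ?_)
        calc dist z x ≤ dist z _ + dist _ x := dist_triangle _ _ _
          _ < r / 2 + r / 2 := add_lt_add hz (mem_ball'.1 hx)
          _ = r := by ring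
    _ = 4 * M := by simp

theorem ball_univ {R : ℝ} (hR : 1 / 2 < R) (y : UnitAddCircle) : ball y R = univ := by
  refine eq_univ_of_forall (fun x => ?_)
  rw [mem_ball, dist_eq_norm]
  refine lt_of_le_of_lt ?_ hR
  have := AddCircle.norm_le_half_period (p := (1:ℝ)) (x := x - y) one_ne_zero
  simpa using this

/-- The total integral of the inverse ball mass is finite. -/
theorem lintegral_inv_lt_top {μ : Measure UnitAddCircle} {r : ℝ} (hr : 0 < r)
    {A : Set UnitAddCircle} (hA : MeasurableSet A) :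
    ∫⁻ x in A, (μ (ball x r ∩ A))⁻¹ ∂μ < ∞ := by
  obtain ⟨M, hM⟩ := exists_nat_gt (1 / r)
  have h1 : (1:ℝ) / 2 < M * r := by
    rw [div_lt_iff₀ hr] at hM
    linarith
  have h2 := lintegral_ball (μ := μ) hr hA M 0
  rw [ball_univ h1, univ_inter] at h2
  exact lt_of_le_of_lt h2 (ENNReal.mul_lt_top (by simp) (ENNReal.natCast_lt_top M))

theorem ae_pos {μ : Measure UnitAddCircle} [IsFiniteMeasure μ] {r : ℝ} (hr : 0 < r)
    {A : Set UnitAddCircle} (hA : MeasurableSet A) :
    ∀ᵐ x ∂μ, x ∈ A → μ (ball x r ∩ A) ≠ 0 := by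
  have h1 := lintegral_inv_lt_top (μ := μ) hr hA
  have h2 := ae_lt_top' ((measurable_ball (μ := μ) r hA).inv.aemeasurable) h1.ne
  have h3 := (ae_restrict_iff' hA).1 h2
  filter_upwards [h3] with x hx hxA h0
  have := hx hxA
  simp [h0] at this

theorem ae_pos' {μ : Measure UnitAddCircle} [IsFiniteMeasure μ] {r : ℝ} (hr : 0 < r) :
    ∀ᵐ x ∂μ, 0 < μ.real (ball x r) := by
  filter_upwards [ae_pos (μ := μ) hr MeasurableSet.univ] with x hx
  have := hx (mem_univ x)
  rw [inter_univ] at this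
  exact ENNReal.toReal_pos this (measure_ne_top _ _)

/-- Double counting. -/
theorem lintegral_cross {μ : Measure UnitAddCircle} [IsFiniteMeasure μ] {r : ℝ} (hr : 0 < r)
    {A : Set UnitAddCircle} (hA : MeasurableSet A) (B : Set UnitAddCircle) (M : ℕ) :
    ∫⁻ x in A, μ (ball x (M * r) ∩ B) * (μ (ball x r ∩ A))⁻¹ ∂μ ≤ 4 * M * μ B := by
  have hmeas : Measurable (fun z : UnitAddCircle × UnitAddCircle =>
      (ball z.1 (M * r)).indicator (fun _ => (μ (ball z.1 r ∩ A))⁻¹) z.2) := by
    have h1 : (fun z : UnitAddCircle × UnitAddCircle =>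
      (ball z.1 (M * r)).indicator (fun _ => (μ (ball z.1 r ∩ A))⁻¹) z.2) =
      {z : UnitAddCircle × UnitAddCircle | dist z.2 z.1 < M * r}.indicator
        (fun z => (μ (ball z.1 r ∩ A))⁻¹) := by
      funext z
      simp only [indicator, mem_ball, mem_ofPred_eq]
    rw [h1]
    refine Measurable.indicator ?_ ?_
    · exact (measurable_ball r hA).inv.comp measurable_fst
    · exact measurableSet_lt (measurable_snd.dist measurable_fst) measurable_const
  calc ∫⁻ x in A, μ (ball x (M * r) ∩ B) * (μ (ball x r ∩ A))⁻¹ ∂μ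
      = ∫⁻ x in A, ∫⁻ y in B, (ball x (M * r)).indicator
          (fun _ => (μ (ball x r ∩ A))⁻¹) y ∂μ ∂μ := by
        refine lintegral_congr (fun x => ?_)
        rw [lintegral_indicator measurableSet_ball, setLIntegral_const,
          Measure.restrict_apply measurableSet_ball, mul_comm]
    _ = ∫⁻ y in B, ∫⁻ x in A, (ball x (M * r)).indicator
          (fun _ => (μ (ball x r ∩ A))⁻¹) y ∂μ ∂μ :=
        lintegral_lintegral_swap hmeas.aemeasurable
    _ ≤ ∫⁻ y in B, 4 * M ∂μ := by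
        refine lintegral_mono (fun y => ?_)
        calc ∫⁻ x in A, (ball x (M * r)).indicator (fun _ => (μ (ball x r ∩ A))⁻¹) y ∂μ
            = ∫⁻ x in A, (ball y (M * r)).indicator (fun x => (μ (ball x r ∩ A))⁻¹) x ∂μ := by
              refine lintegral_congr (fun x => ?_)
              simp only [indicator, mem_ball, dist_comm]
          _ = ∫⁻ x in ball y (M * r) ∩ A, (μ (ball x r ∩ A))⁻¹ ∂μ := by
              rw [lintegral_indicator measurableSet_ball,
                Measure.restrict_restrict measurableSet_ball]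
          _ ≤ 4 * M := lintegral_ball hr hA M y
    _ = 4 * M * μ B := by rw [setLIntegral_const]

theorem phi_nonneg {μ : Measure UnitAddCircle} [IsProbabilityMeasure μ] (r : ℝ)
    (x : UnitAddCircle) : 0 ≤ phi μ r x := by
  unfold phi
  have := Real.log_nonpos (measureReal_nonneg (μ := μ) (s := ball x r)) measureReal_le_one
  linarith

theorem measurable_phi {μ : Measure UnitAddCircle} [IsProbabilityMeasure μ] (r : ℝ) :
    Measurable (phi μ r) := by
  unfold phi
  exact (Real.measurable_log.comp (measurable_ball' r).ennreal_toReal).neg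

theorem integrable_phi {μ : Measure UnitAddCircle} [IsProbabilityMeasure μ] {r : ℝ}
    (hr : 0 < r) : Integrable (phi μ r) μ := by
  have h1 := lintegral_inv_lt_top (μ := μ) hr MeasurableSet.univ
  simp only [inter_univ, Measure.restrict_univ] at h1
  have h2 : Integrable (fun x => ((μ (ball x r))⁻¹).toReal) μ :=
    integrable_toReal_of_lintegral_ne_top (measurable_ball' r).inv.aemeasurable h1.ne
  refine h2.mono' (measurable_phi r).aestronglyMeasurable ?_
  filter_upwards [ae_pos' (μ := μ) hr] with x hx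
  rw [Real.norm_of_nonneg (phi_nonneg r x), phi, ← Real.log_inv, ENNReal.toReal_inv]
  exact Real.log_le_self (by positivity)

end Pool.Agent.H.MP_96e181_an.Mix
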