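import Mathlib
import Pool.Agent.H.MP_96e181_an.mix.Entropy

set_option autoImplicit false

namespace Pool.Agent.H.MP_96e181_an.Mix

open MeasureTheory Set Metric
open scoped ENNReal

theorem good_bound {μ : Measure UnitAddCircle} [IsProbabilityMeasure μ] {r R : ℝ}
    (hR : 0 < R) {G : Set UnitAddCircle} (hG : MeasurableSet G)
    (hpair : ∀ x ∈ G, ∀ y ∈ G, dist y x < R → dist y x < r) {x : UnitAddCircle} (hx : x ∈ G)
    (hpos : μ (ball x R ∩ G) ≠ 0) :
    phi μ r x ≤ phi μ R x + (μ (ball x R ∩ Gᶜ) * (μ (ball x R ∩ G))⁻¹).toReal := by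
  set h : ℝ := μ.real (ball x R ∩ G) with hh
  have hh0 : 0 < h := ENNReal.toReal_pos hpos (measure_ne_top _ _)
  have hle : h ≤ μ.real (ball x r) := by
    refine measureReal_mono ?_
    exact fun y hy => mem_ball.2 (hpair x hx y hy.2 (mem_ball.1 hy.1))
  have hsum : μ.real (ball x R) = h + μ.real (ball x R ∩ Gᶜ) := by
    rw [hh, ← diff_eq, measureReal_inter_add_diff hG]
  have hRpos : 0 < μ.real (ball x R) := by
    have : 0 ≤ μ.real (ball x R ∩ Gᶜ) := measureReal_nonneg
    linarith
  rw [ENNReal.toReal_mul, ENNReal.toReal_inv]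
  change -Real.log (μ.real (ball x r)) ≤ -Real.log (μ.real (ball x R)) +
    μ.real (ball x R ∩ Gᶜ) * h⁻¹
  have h1 : Real.log h ≤ Real.log (μ.real (ball x r)) := Real.log_le_log hh0 hle
  have h2 : Real.log (μ.real (ball x R) / h) ≤ μ.real (ball x R) / h - 1 :=
    Real.log_le_sub_one_of_pos (by positivity)
  rw [Real.log_div hRpos.ne' hh0.ne'] at h2
  have h3 : μ.real (ball x R) / h - 1 = μ.real (ball x R ∩ Gᶜ) * h⁻¹ := by
    rw [hsum]; field_simp; ring
  linarith

theorem bad_bound {μ : Measure UnitAddCircle} [IsProbabilityMeasure μ] {r R : ℝ} {M : ℕ}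
    (hM : R ≤ M * r) {Q : ℝ} (hQ : 1 ≤ Q) {x : UnitAddCircle}
    (hpos : 0 < μ.real (ball x r)) (hrR : r ≤ R) :
    phi μ r x ≤ phi μ R x + Real.log Q +
      (μ (ball x (M * r)) * (μ (ball x r))⁻¹).toReal / Q := by
  rw [ENNReal.toReal_mul, ENNReal.toReal_inv]
  change -Real.log (μ.real (ball x r)) ≤ -Real.log (μ.real (ball x R)) + Real.log Q +
    μ.real (ball x (M * r)) * (μ.real (ball x r))⁻¹ / Q
  have hRr : μ.real (ball x r) ≤ μ.real (ball x R) := measureReal_mono (ball_subset_ball hrR)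
  have hRpos : 0 < μ.real (ball x R) := lt_of_lt_of_le hpos hRr
  have hMR : μ.real (ball x R) ≤ μ.real (ball x (M * r)) :=
    measureReal_mono (ball_subset_ball hM)
  have hQ0 : 0 < Q := by linarith
  have h2 : Real.log (μ.real (ball x R) / (Q * μ.real (ball x r))) ≤
      μ.real (ball x R) / (Q * μ.real (ball x r)) - 1 :=
    Real.log_le_sub_one_of_pos (by positivity)
  rw [Real.log_div hRpos.ne' (by positivity), Real.log_mul hQ0.ne' hpos.ne'] at h2
  have h3 : μ.real (ball x R) / (Q * μ.real (ball x r)) ≤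
      μ.real (ball x (M * r)) * (μ.real (ball x r))⁻¹ / Q := by
    rw [← div_eq_mul_inv, div_div, mul_comm (μ.real (ball x r)) Q]
    gcongr
  linarith

/-- The entropy step: if a set `G` of large measure contains no two points at distance in
`[r, R)`, the entropy grows very little between the scales `R` and `r`. -/
theorem ent_step {μ : Measure UnitAddCircle} [IsProbabilityMeasure μ] {r R : ℝ} {M : ℕ}
    (hr : 0 < r) (hrR : r ≤ R) (hM : R ≤ M * r) {G : Set UnitAddCircle} (hG : MeasurableSet G)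
    (hpair : ∀ x ∈ G, ∀ y ∈ G, dist y x < R → dist y x < r) {Q : ℝ} (hQ : 1 ≤ Q) :
    ent μ r ≤ ent μ R + 4 * μ.real Gᶜ + μ.real Gᶜ * Real.log Q + 4 * M / Q := by
  have hR : 0 < R := lt_of_lt_of_le hr hrR
  have hQ0 : 0 < Q := by linarith
  -- the good part
  set U : UnitAddCircle → ℝ≥0∞ := fun x => μ (ball x R ∩ Gᶜ) * (μ (ball x R ∩ G))⁻¹ with hU
  have hUm : Measurable U := (measurable_ball R hG.compl).mul (measurable_ball R hG).inv
  have hUl : ∫⁻ x in G, U x ∂μ ≤ 4 * μ Gᶜ := by
    have := lintegral_cross (μ := μ) hR hG Gᶜ 1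
    simpa [hU] using this
  have hUfin : ∫⁻ x in G, U x ∂μ ≠ ∞ :=
    (lt_of_le_of_lt hUl (ENNReal.mul_lt_top (by simp) (measure_lt_top _ _))).ne
  have hUi : IntegrableOn (fun x => (U x).toReal) G μ :=
    integrable_toReal_of_lintegral_ne_top hUm.aemeasurable hUfin
  have hUint : ∫ x in G, (U x).toReal ∂μ ≤ 4 * μ.real Gᶜ := by
    rw [integral_toReal hUm.aemeasurable (ae_lt_top' hUm.aemeasurable hUfin)]
    have := ENNReal.toReal_mono (ENNReal.mul_lt_top (by simp) (measure_lt_top μ Gᶜ)).ne hUl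
    simpa [Measure.real] using this
  -- the bad part
  set V : UnitAddCircle → ℝ≥0∞ := fun x => μ (ball x (M * r)) * (μ (ball x r))⁻¹ with hV
  have hVm : Measurable V := (measurable_ball' _).mul (measurable_ball' r).inv
  have hVl : ∫⁻ x, V x ∂μ ≤ 4 * M := by
    have := lintegral_cross (μ := μ) hr MeasurableSet.univ univ M
    simpa [hV] using this
  have hVfin : ∫⁻ x, V x ∂μ ≠ ∞ :=
    (lt_of_le_of_lt hVl (ENNReal.mul_lt_top (by simp) (ENNReal.natCast_lt_top M))).ne
  have hVi : Integrable (fun x => (V x).toReal) μ :=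
    integrable_toReal_of_lintegral_ne_top hVm.aemeasurable hVfin
  have hVint : ∫ x, (V x).toReal ∂μ ≤ 4 * M := by
    rw [integral_toReal hVm.aemeasurable (ae_lt_top' hVm.aemeasurable hVfin)]
    have := ENNReal.toReal_mono (ENNReal.mul_lt_top (by simp) (ENNReal.natCast_lt_top M)).ne hVl
    simpa using this
  -- pointwise bound
  have hae : ∀ᵐ x ∂μ, phi μ r x ≤ phi μ R x + G.indicator (fun x => (U x).toReal) x +
      Gᶜ.indicator (fun _ => Real.log Q) x + (V x).toReal / Q := by
    filter_upwards [ae_pos (μ := μ) hR hG, ae_pos' (μ := μ) hr] with x h1 h2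
    have hV0 : 0 ≤ (V x).toReal / Q := by positivity
    by_cases hx : x ∈ G
    · rw [indicator_of_mem hx, indicator_of_notMem (by simpa using hx)]
      have := good_bound hR hG hpair hx (h1 hx)
      linarith
    · rw [indicator_of_notMem hx, indicator_of_mem (by simpa using hx)]
      have := bad_bound (μ := μ) hM hQ h2 hrR
      linarith
  have hI1 : Integrable (phi μ R) μ := integrable_phi hR
  have hI2 : Integrable (G.indicator (fun x => (U x).toReal)) μ := hUi.integrable_indicator hG
  have hI3 : Integrable (Gᶜ.indicator (fun _ => Real.log Q)) μ :=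
    (integrable_const _).indicator hG.compl
  have hI4 : Integrable (fun x => (V x).toReal / Q) μ := hVi.div_const Q
  have hmain := integral_mono_ae (integrable_phi hr) (((hI1.add hI2).add hI3).add hI4) hae
  have e1 : ∫ x, (((phi μ R + G.indicator (fun x => (U x).toReal)) +
      Gᶜ.indicator (fun _ => Real.log Q)) + fun x => (V x).toReal / Q) x ∂μ =
      ent μ R + ∫ x in G, (U x).toReal ∂μ + μ.real Gᶜ * Real.log Q +
        (∫ x, (V x).toReal ∂μ) / Q := by
    rw [integral_add' ((hI1.add hI2).add hI3) hI4, integral_add' (hI1.add hI2) hI3,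
      integral_add' hI1 hI2, integral_indicator hG, integral_indicator hG.compl,
      setIntegral_const, integral_div, smul_eq_mul]
    rfl
  rw [e1] at hmain
  have h5 : (∫ x, (V x).toReal ∂μ) / Q ≤ 4 * M / Q := by gcongr
  change ent μ r ≤ _ at hmain
  linarith

end Pool.Agent.H.MP_96e181_an.Mix
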