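import Mathlib
import Pool.Agent.H.MP_96e181_an.NonLac

set_option autoImplicit false

namespace Pool.Agent.H.MP_96e181_an.Mix

open Real

/-- One step of the greedy walk along the hypotenuse. -/
noncomputable def step (a b c δ : ℝ) (m n m' n' : ℕ) (v : ℕ × ℕ) : ℕ × ℕ :=
  if (v.1 : ℝ) * a + (v.2 : ℝ) * b - c < δ then (v.1 + m, v.2 - n) else (v.1 + n', v.2 - m')

theorem walk_add {a b : ℝ} (ha : 0 < a) (hb : 0 < b) (h : Irrational (a / b)) {δ : ℝ}
    (hδ : 0 < δ) : ∃ B : ℕ, 0 < B ∧ ∀ j : ℕ, ∃ i l : ℕ → ℕ,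
      (∀ s, s + 1 ≤ j / B → i s < i (s + 1) ∧ l (s + 1) < l s) ∧
      ∀ s, s ≤ j / B → 0 ≤ (i s : ℝ) * a + (l s : ℝ) * b - j * b ∧
        (i s : ℝ) * a + (l s : ℝ) * b - j * b < δ := by
  have h' : Irrational (b / a) := by
    rw [← inv_div]; exact h.inv
  obtain ⟨m, n, h0, h1⟩ := Pool.Agent.H.MP_96e181_an.small_pos_comb ha hb h
    (ε := min (δ / 2) a) (lt_min (by linarith) ha)
  obtain ⟨m', n', h0', h1'⟩ := Pool.Agent.H.MP_96e181_an.small_pos_comb hb ha h'
    (ε := min (δ / 2) b) (lt_min (by linarith) hb)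
  have h1a : (m : ℝ) * a - n * b < δ / 2 := lt_of_lt_of_le h1 (min_le_left _ _)
  have h1b : (m : ℝ) * a - n * b < a := lt_of_lt_of_le h1 (min_le_right _ _)
  have h1a' : (m' : ℝ) * b - n' * a < δ / 2 := lt_of_lt_of_le h1' (min_le_left _ _)
  have h1b' : (m' : ℝ) * b - n' * a < b := lt_of_lt_of_le h1' (min_le_right _ _)
  have hm : 1 ≤ m := by
    rcases Nat.eq_zero_or_pos m with hm | hm
    · exfalso
      rw [hm] at h0
      have : (0:ℝ) ≤ n * b := by positivity
      push_cast at h0
      linarith
    · exact hm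
  have hn : 1 ≤ n := by
    rcases Nat.eq_zero_or_pos n with hn | hn
    · exfalso
      rw [hn] at h1b
      have h2 : (1:ℝ) ≤ m := by exact_mod_cast hm
      push_cast at h1b
      nlinarith
    · exact hn
  have hm' : 1 ≤ m' := by
    rcases Nat.eq_zero_or_pos m' with hm | hm
    · exfalso
      rw [hm] at h0'
      have : (0:ℝ) ≤ n' * a := by positivity
      push_cast at h0'
      linarith
    · exact hm
  have hn' : 1 ≤ n' := by
    rcases Nat.eq_zero_or_pos n' with hn | hn
    · exfalso
      rw [hn] at h1b'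
      have h2 : (1:ℝ) ≤ m' := by exact_mod_cast hm'
      push_cast at h1b'
      nlinarith
    · exact hn
  refine ⟨max n m', lt_of_lt_of_le hn (le_max_left _ _), fun j => ?_⟩
  set B := max n m' with hB
  have hBpos : 0 < B := lt_of_lt_of_le hn (le_max_left _ _)
  have hnB : n ≤ B := le_max_left _ _
  have hmB : m' ≤ B := le_max_right _ _
  set f : ℕ → ℕ × ℕ := fun s =>
    Nat.rec (0, j) (fun _ v => step a b (j * b) (δ / 2) m n m' n' v) s with hf
  have hf0 : f 0 = (0, j) := rfl
  have hfs : ∀ s, f (s + 1) = step a b (j * b) (δ / 2) m n m' n' (f s) := fun s => rfl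
  have key : ∀ s, s ≤ j / B → (j ≤ (f s).2 + s * B ∧
      0 ≤ ((f s).1 : ℝ) * a + ((f s).2 : ℝ) * b - j * b ∧
        ((f s).1 : ℝ) * a + ((f s).2 : ℝ) * b - j * b < δ) := by
    intro s
    induction s with
    | zero =>
      intro _
      rw [hf0]
      refine ⟨by simp, ?_, ?_⟩
      · simp
      · simpa using hδ
    | succ s ih =>
      intro hs
      obtain ⟨ih1, ih2, ih3⟩ := ih (by omega)
      have hsB : (s + 1) * B ≤ j := by
        calc (s + 1) * B ≤ (j / B) * B := Nat.mul_le_mul_right _ hs
          _ ≤ j := Nat.div_mul_le_self _ _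
      have hl : B ≤ (f s).2 := by
        have : (s + 1) * B = s * B + B := by ring
        omega
      rw [hfs, step]
      split_ifs with hc
      · refine ⟨?_, ?_, ?_⟩
        · have : (s + 1) * B = s * B + B := by ring
          simp only
          omega
        · simp only
          rw [Nat.cast_sub (hnB.trans hl)]
          push_cast
          nlinarith
        · simp only
          rw [Nat.cast_sub (hnB.trans hl)]
          push_cast
          nlinarith
      · push Not at hc
        refine ⟨?_, ?_, ?_⟩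
        · have : (s + 1) * B = s * B + B := by ring
          simp only
          omega
        · simp only
          rw [Nat.cast_sub (hmB.trans hl)]
          push_cast
          nlinarith
        · simp only
          rw [Nat.cast_sub (hmB.trans hl)]
          push_cast
          nlinarith
  refine ⟨fun s => (f s).1, fun s => (f s).2, fun s hs => ?_, fun s hs => (key s hs).2⟩
  obtain ⟨k1, -, -⟩ := key s (by omega)
  have hsB : (s + 1) * B ≤ j := by
    calc (s + 1) * B ≤ (j / B) * B := Nat.mul_le_mul_right _ hs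
      _ ≤ j := Nat.div_mul_le_self _ _
  have hl : B ≤ (f s).2 := by
    have : (s + 1) * B = s * B + B := by ring
    omega
  simp only
  rw [hfs, step]
  split_ifs with hc
  · constructor
    · simp only; omega
    · simp only; omega
  · constructor
    · simp only; omega
    · simp only; omega

theorem mono_of_step {i : ℕ → ℕ} {S : ℕ} (h : ∀ s, s + 1 ≤ S → i s < i (s + 1)) :
    ∀ s t, s < t → t ≤ S → i s < i t := by
  intro s t hst
  induction t with
  | zero => omega
  | succ t ih =>
    intro ht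
    rcases Nat.lt_or_ge s t with h1 | h1
    · exact (ih h1 (by omega)).trans (h t ht)
    · have : s = t := by omega
      subst this
      exact h s ht

theorem anti_of_step {l : ℕ → ℕ} {S : ℕ} (h : ∀ s, s + 1 ≤ S → l (s + 1) < l s) :
    ∀ s t, s < t → t ≤ S → l t < l s := by
  intro s t hst
  induction t with
  | zero => omega
  | succ t ih =>
    intro ht
    rcases Nat.lt_or_ge s t with h1 | h1
    · exact (h t ht).trans (ih h1 (by omega))
    · have : s = t := by omega
      subst this
      exact h s ht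

/-- Many lattice points close to the hypotenuse `p ^ i * q ^ l = q ^ j`. -/
theorem walk {p q : ℕ} (hp : 2 ≤ p) (hq : 2 ≤ q)
    (h : Irrational (Real.log (p : ℝ) / Real.log (q : ℝ))) {ε : ℝ} (hε : 0 < ε) :
    ∃ B : ℕ, 0 < B ∧ ∀ j : ℕ, ∃ i l : ℕ → ℕ,
      (∀ s t, s < t → t ≤ j / B → i s < i t ∧ l t < l s) ∧
      ∀ s, s ≤ j / B → (q : ℝ) ^ j ≤ (p : ℝ) ^ i s * (q : ℝ) ^ l s ∧
        (p : ℝ) ^ i s * (q : ℝ) ^ l s ≤ (1 + ε) * (q : ℝ) ^ j := by
  have hp0 : (0:ℝ) < p := by positivity
  have hq0 : (0:ℝ) < q := by positivity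
  have hp1 : (1:ℝ) < p := by exact_mod_cast (by omega : 1 < p)
  have hq1 : (1:ℝ) < q := by exact_mod_cast (by omega : 1 < q)
  obtain ⟨B, hB, H⟩ := walk_add (Real.log_pos hp1) (Real.log_pos hq1) h
    (δ := Real.log (1 + ε)) (Real.log_pos (by linarith))
  refine ⟨B, hB, fun j => ?_⟩
  obtain ⟨i, l, hst, hv⟩ := H j
  refine ⟨i, l, fun s t h1 h2 => ⟨mono_of_step (fun s hs => (hst s hs).1) s t h1 h2,
    anti_of_step (fun s hs => (hst s hs).2) s t h1 h2⟩, fun s hs => ?_⟩
  obtain ⟨v1, v2⟩ := hv s hs
  have e1 : Real.log ((p : ℝ) ^ i s * (q : ℝ) ^ l s) =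
      (i s : ℝ) * Real.log p + (l s : ℝ) * Real.log q := by
    rw [Real.log_mul (by positivity) (by positivity), Real.log_pow, Real.log_pow]
  have e2 : Real.log ((q : ℝ) ^ j) = (j : ℝ) * Real.log q := Real.log_pow _ _
  constructor
  · rw [← Real.log_le_log_iff (by positivity) (by positivity), e1, e2]
    linarith
  · rw [← Real.log_le_log_iff (by positivity) (by positivity), e1,
      Real.log_mul (by positivity) (by positivity), e2]
    linarith

end Pool.Agent.H.MP_96e181_an.Mix
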