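import Mathlib
import Pool.Agent.H.MP_96e181_an.Furst
import Pool.Agent.H.MP_96e181_an.Average
import Pool.Agent.H.MP_96e181_an.mix.Walk

set_option autoImplicit false

namespace Pool.Agent.H.MP_96e181_an.Mix

open MeasureTheory Set Metric Finset
open scoped ENNReal ComplexConjugate

/-- Fourier coefficients of a measure on the circle. -/
noncomputable def mhat (μ : Measure UnitAddCircle) (k : ℤ) : ℂ := ∫ x, (fourier k x : ℂ) ∂μ

theorem norm_fourier (k : ℤ) (x : UnitAddCircle) : ‖(fourier k x : ℂ)‖ = 1 := Circle.norm_coe _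

theorem fourier_smul (k : ℤ) (n : ℕ) (x : UnitAddCircle) :
    (fourier k (n • x) : ℂ) = fourier (k * n) x := by
  rw [fourier_apply, fourier_apply]
  congr 2
  rw [mul_smul, natCast_zsmul]

theorem integrable_fourier (μ : Measure UnitAddCircle) [IsFiniteMeasure μ] (k : ℤ) :
    Integrable (fun x => (fourier k x : ℂ)) μ :=
  (fourier k).continuous.integrable_of_hasCompactSupport (HasCompactSupport.of_compactSpace _)

theorem mhat_mul {μ : Measure UnitAddCircle} {n : ℕ}
    (hn : MeasurePreserving (fun x : UnitAddCircle => n • x) μ μ) (k : ℤ) :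
    mhat μ (k * n) = mhat μ k := by
  unfold mhat
  have h1 : ∫ x, (fourier k x : ℂ) ∂(μ.map (fun x : UnitAddCircle => n • x)) =
      ∫ x, (fourier k (n • x) : ℂ) ∂μ :=
    integral_map hn.measurable.aemeasurable
      (fourier k).continuous.aestronglyMeasurable
  rw [hn.map_eq] at h1
  rw [h1]
  exact integral_congr_ae (Filter.Eventually.of_forall (fun x => (fourier_smul k n x).symm))

theorem mhat_neg (μ : Measure UnitAddCircle) (k : ℤ) : mhat μ (-k) = conj (mhat μ k) := by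
  unfold mhat
  rw [← integral_conj]
  exact integral_congr_ae (Filter.Eventually.of_forall (fun x => fourier_neg))

theorem norm_mhat_le (μ : Measure UnitAddCircle) [IsProbabilityMeasure μ] (k : ℤ) :
    ‖mhat μ k‖ ≤ 1 := by
  have := norm_integral_le_of_norm_le_const (μ := μ) (f := fun x => (fourier k x : ℂ)) (C := 1)
    (Filter.Eventually.of_forall (fun x => (norm_fourier k x).le))
  simpa [mhat] using this

theorem fourier_mul_conj (k l : ℤ) (x : UnitAddCircle) :
    (fourier k x : ℂ) * conj (fourier l x : ℂ) = fourier (k - l) x := by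
  rw [← fourier_neg, ← fourier_add, sub_eq_add_neg]

/-- Correlation of two centred characters. -/
theorem corr_eq {μ : Measure UnitAddCircle} [IsProbabilityMeasure μ] {k l : ℤ} {c : ℂ}
    (hk : mhat μ k = c) (hl : mhat μ l = c) :
    ∫ x, ((fourier k x : ℂ) - c) * conj ((fourier l x : ℂ) - c) ∂μ =
      mhat μ (k - l) - c * conj c := by
  have e : ∀ x : UnitAddCircle, ((fourier k x : ℂ) - c) * conj ((fourier l x : ℂ) - c) =
      fourier (k - l) x - c * fourier (-l) x - conj c * fourier k x + c * conj c := by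
    intro x
    rw [map_sub, ← fourier_mul_conj, fourier_neg]
    ring
  simp_rw [e]
  have i1 := integrable_fourier μ (k - l)
  have i2 := (integrable_fourier μ (-l)).const_mul c
  have i3 := (integrable_fourier μ k).const_mul (conj c)
  have i4 : Integrable (fun _ : UnitAddCircle => c * conj c) μ := integrable_const _
  have i12 : Integrable (fun x : UnitAddCircle =>
      (fourier (k - l) x : ℂ) - c * fourier (-l) x) μ := i1.sub i2
  have i123 : Integrable (fun x : UnitAddCircle =>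
      (fourier (k - l) x : ℂ) - c * fourier (-l) x - conj c * fourier k x) μ := i12.sub i3
  rw [integral_add i123 i4, integral_sub i12 i3, integral_sub i1 i2,
    integral_const_mul, integral_const_mul, integral_const]
  have h1 : ∫ x, (fourier (-l) x : ℂ) ∂μ = conj c := by
    rw [← hl, ← mhat_neg]; rfl
  have h2 : ∫ x, (fourier k x : ℂ) ∂μ = c := hk
  have h3 : ∫ x, (fourier (k - l) x : ℂ) ∂μ = mhat μ (k - l) := rfl
  have h4 : μ.real univ = 1 := by simp
  rw [h1, h2, h4, one_smul]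
  erw [h3]
  ring

/-- Variance bound from correlation bounds. -/
theorem variance_le {μ : Measure UnitAddCircle} [IsProbabilityMeasure μ] {S : ℕ} (hS : 0 < S)
    {n : ℕ → ℤ} {c : ℂ} (hc : ∀ s, s < S → mhat μ (n s) = c) {T : ℝ}
    (hT : ∀ s, s < S → ∑ t ∈ range S, ‖mhat μ (n s - n t) - c * conj c‖ ≤ T) :
    ∫ x, ‖(S : ℂ)⁻¹ * ∑ s ∈ range S, (fourier (n s) x : ℂ) - c‖ ^ 2 ∂μ ≤ T / S := by
  have hS0 : (S : ℂ) ≠ 0 := by exact_mod_cast hS.ne'
  have hSr : (0:ℝ) < S := by exact_mod_cast hS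
  set f : ℕ → UnitAddCircle → ℂ := fun s x => (fourier (n s) x : ℂ) - c with hf
  have hfc : ∀ s, Continuous (f s) := fun s => (fourier (n s)).continuous.sub continuous_const
  have hA : ∀ x, (S : ℂ)⁻¹ * ∑ s ∈ range S, (fourier (n s) x : ℂ) - c =
      (S : ℂ)⁻¹ * ∑ s ∈ range S, f s x := by
    intro x
    rw [hf]
    simp only [Finset.sum_sub_distrib, Finset.sum_const, Finset.card_range, nsmul_eq_mul]
    field_simp
  have h1 : ∀ x, ‖(S : ℂ)⁻¹ * ∑ s ∈ range S, (fourier (n s) x : ℂ) - c‖ ^ 2 =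
      ((S : ℝ) ^ 2)⁻¹ * ‖∑ s ∈ range S, f s x‖ ^ 2 := by
    intro x
    rw [hA, norm_mul, norm_inv, Complex.norm_natCast, mul_pow, inv_pow]
  simp_rw [h1]
  rw [integral_const_mul]
  have h2 : ((∫ x, ‖∑ s ∈ range S, f s x‖ ^ 2 ∂μ : ℝ) : ℂ) =
      ∑ s ∈ range S, ∑ t ∈ range S, (mhat μ (n s - n t) - c * conj c) := by
    have e : ∀ x, ((‖∑ s ∈ range S, f s x‖ ^ 2 : ℝ) : ℂ) =
        ∑ s ∈ range S, ∑ t ∈ range S, f s x * conj (f t x) := by
      intro x
      rw [Complex.ofReal_pow, ← Complex.mul_conj', map_sum, Finset.sum_mul_sum]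
    have e0 : ((∫ x, ‖∑ s ∈ range S, f s x‖ ^ 2 ∂μ : ℝ) : ℂ) =
        ∫ x, ((‖∑ s ∈ range S, f s x‖ ^ 2 : ℝ) : ℂ) ∂μ := integral_ofReal.symm
    rw [e0]
    simp_rw [e]
    rw [integral_finsetSum]
    · refine Finset.sum_congr rfl (fun s hs => ?_)
      rw [integral_finsetSum]
      · refine Finset.sum_congr rfl (fun t ht => ?_)
        exact corr_eq (hc s (Finset.mem_range.1 hs)) (hc t (Finset.mem_range.1 ht))
      · intro t _
        exact ((hfc s).mul (Complex.continuous_conj.comp (hfc t))).integrable_of_hasCompactSupport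
          (HasCompactSupport.of_compactSpace _)
    · intro s _
      refine integrable_finsetSum _ (fun t _ => ?_)
      exact ((hfc s).mul (Complex.continuous_conj.comp (hfc t))).integrable_of_hasCompactSupport
          (HasCompactSupport.of_compactSpace _)
  have h3 : ∫ x, ‖∑ s ∈ range S, f s x‖ ^ 2 ∂μ ≤ S * T := by
    have h4 : ∫ x, ‖∑ s ∈ range S, f s x‖ ^ 2 ∂μ ≤
        ‖((∫ x, ‖∑ s ∈ range S, f s x‖ ^ 2 ∂μ : ℝ) : ℂ)‖ := by
      rw [Complex.norm_real]; exact le_abs_self _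
    refine h4.trans ?_
    rw [h2]
    calc ‖∑ s ∈ range S, ∑ t ∈ range S, (mhat μ (n s - n t) - c * conj c)‖
        ≤ ∑ s ∈ range S, ‖∑ t ∈ range S, (mhat μ (n s - n t) - c * conj c)‖ := norm_sum_le _ _
      _ ≤ ∑ s ∈ range S, ∑ t ∈ range S, ‖mhat μ (n s - n t) - c * conj c‖ :=
          Finset.sum_le_sum (fun s _ => norm_sum_le _ _)
      _ ≤ ∑ s ∈ range S, T := Finset.sum_le_sum (fun s hs => hT s (Finset.mem_range.1 hs))
      _ = S * T := by simp
  calc ((S : ℝ) ^ 2)⁻¹ * ∫ x, ‖∑ s ∈ range S, f s x‖ ^ 2 ∂μ ≤ ((S : ℝ) ^ 2)⁻¹ * (S * T) := by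
        gcongr
    _ = T / S := by field_simp

theorem norm_exp_sub_exp (a b : ℝ) :
    ‖Complex.exp (Complex.I * a) - Complex.exp (Complex.I * b)‖ ≤ |a - b| := by
  have e : Complex.exp (Complex.I * a) - Complex.exp (Complex.I * b) =
      Complex.exp (Complex.I * b) * (Complex.exp (Complex.I * ((a - b : ℝ) : ℂ)) - 1) := by
    rw [mul_sub, ← Complex.exp_add]
    push_cast
    ring_nf
  rw [e, norm_mul, mul_comm Complex.I (b : ℂ), Complex.norm_exp_ofReal_mul_I, one_mul]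
  exact Real.norm_exp_I_mul_ofReal_sub_one_le

/-- Two points with the same good average at scale `R` are not at distance about `1 / R`. -/
theorem pair_lemma {k : ℤ} {S : ℕ} (hS : 0 < S) {n : ℕ → ℕ} {R ε : ℝ}
    (hn : ∀ s, s < S → R ≤ n s ∧ (n s : ℝ) ≤ (1 + ε) * R) (hR : 0 ≤ R) {c : ℂ} {η : ℝ}
    {x y : UnitAddCircle}
    (hx : ‖(S : ℂ)⁻¹ * ∑ s ∈ range S, (fourier (k * n s) x : ℂ) - c‖ < η)
    (hy : ‖(S : ℂ)⁻¹ * ∑ s ∈ range S, (fourier (k * n s) y : ℂ) - c‖ < η)
    (ht : |(k : ℝ)| * R * dist y x ≤ 1 / 2) :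
    ‖c‖ * (4 * (|(k : ℝ)| * R * dist y x)) ≤
      2 * η + 2 * Real.pi * ε * (|(k : ℝ)| * R * dist y x) := by
  obtain ⟨δ, hδ, hδn⟩ := exists_lift (y - x)
  rw [← dist_eq_norm] at hδn
  have hSr : (0:ℝ) < S := by exact_mod_cast hS
  set d := dist y x with hd
  set E : ℂ := Complex.exp (Complex.I * ((2 * Real.pi * (k * R * δ) : ℝ) : ℂ)) with hE
  have hEn : ‖E‖ = 1 := by
    rw [hE, mul_comm Complex.I, Complex.norm_exp_ofReal_mul_I]
  set Ax : ℂ := (S : ℂ)⁻¹ * ∑ s ∈ range S, (fourier (k * n s) x : ℂ) with hAx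
  set Ay : ℂ := (S : ℂ)⁻¹ * ∑ s ∈ range S, (fourier (k * n s) y : ℂ) with hAy
  have hfy : ∀ s, (fourier (k * n s) y : ℂ) = fourier (k * n s) x *
      Complex.exp (Complex.I * ((2 * Real.pi * (k * n s * δ) : ℝ) : ℂ)) := by
    intro s
    have e1 : y = x + (δ : UnitAddCircle) := by rw [hδ]; abel
    conv_lhs => rw [e1]
    have e2 : (fourier (k * n s) (x + (δ : UnitAddCircle)) : ℂ) =
        fourier (k * n s) x * fourier (k * n s) (δ : UnitAddCircle) := by
      rw [fourier_apply, fourier_apply, fourier_apply, smul_add, AddCircle.toCircle_add,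
        Circle.coe_mul]
    rw [e2]
    congr 1
    rw [fourier_coe_apply]
    congr 1
    push_cast
    ring
  have hdiff : ‖Ay - E * Ax‖ ≤ 2 * Real.pi * ε * (|(k : ℝ)| * R * d) := by
    have e1 : Ay - E * Ax = (S : ℂ)⁻¹ * ∑ s ∈ range S, (fourier (k * n s) x : ℂ) *
        (Complex.exp (Complex.I * ((2 * Real.pi * (k * n s * δ) : ℝ) : ℂ)) - E) := by
      rw [hAx, hAy]
      simp_rw [hfy, mul_sub]
      rw [Finset.sum_sub_distrib, mul_sub, ← Finset.sum_mul]
      ring
    rw [e1, norm_mul, norm_inv, Complex.norm_natCast]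
    have e2 : ‖∑ s ∈ range S, (fourier (k * n s) x : ℂ) *
        (Complex.exp (Complex.I * ((2 * Real.pi * (k * n s * δ) : ℝ) : ℂ)) - E)‖ ≤
        ∑ s ∈ range S, 2 * Real.pi * ε * (|(k : ℝ)| * R * d) := by
      refine (norm_sum_le _ _).trans (Finset.sum_le_sum (fun s hs => ?_))
      rw [norm_mul, norm_fourier, one_mul]
      refine (norm_exp_sub_exp _ _).trans ?_
      obtain ⟨h1, h2⟩ := hn s (Finset.mem_range.1 hs)
      have e3 : 2 * Real.pi * (k * n s * δ) - 2 * Real.pi * (k * R * δ) =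
          2 * Real.pi * (k * δ * (n s - R)) := by ring
      rw [e3, abs_mul (2 * Real.pi), abs_mul ((k : ℝ) * δ), abs_mul (k : ℝ), hδn,
        abs_of_nonneg (by positivity : (0:ℝ) ≤ 2 * Real.pi),
        abs_of_nonneg (by linarith : (0:ℝ) ≤ n s - R)]
      have h3 : (n s : ℝ) - R ≤ ε * R := by linarith
      have h4 : 0 ≤ |(k : ℝ)| * d := by positivity
      calc 2 * Real.pi * (|(k : ℝ)| * d * (n s - R)) ≤ 2 * Real.pi * (|(k : ℝ)| * d * (ε * R)) := by
            gcongr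
        _ = 2 * Real.pi * ε * (|(k : ℝ)| * R * d) := by ring
    rw [Finset.sum_const, Finset.card_range, nsmul_eq_mul] at e2
    calc (S : ℝ)⁻¹ * _ ≤ (S : ℝ)⁻¹ * (S * (2 * Real.pi * ε * (|(k : ℝ)| * R * d))) := by gcongr
      _ = 2 * Real.pi * ε * (|(k : ℝ)| * R * d) := by field_simp
  have hlow : 4 * (|(k : ℝ)| * R * d) ≤ ‖E - 1‖ := by
    rw [hE, Complex.norm_exp_I_mul_ofReal_sub_one, norm_mul, Real.norm_ofNat, Real.norm_eq_abs]
    have e1 : |Real.pi * (k * R * δ)| ≤ Real.pi / 2 := by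
      rw [abs_mul, abs_of_pos Real.pi_pos, abs_mul, abs_mul, hδn, abs_of_nonneg hR]
      nlinarith [Real.pi_pos]
    have e2 := Real.mul_abs_le_abs_sin e1
    have e3 : 2 * Real.pi * (k * R * δ) / 2 = Real.pi * (k * R * δ) := by ring
    rw [e3]
    rw [abs_mul Real.pi, abs_of_pos Real.pi_pos, abs_mul, abs_mul, hδn, abs_of_nonneg hR] at e2
    have e4 : 2 / Real.pi * (Real.pi * (|(k : ℝ)| * R * d)) = 2 * (|(k : ℝ)| * R * d) := by
      field_simp
    rw [e4] at e2
    linarith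
  have hcE : ‖c * (E - 1)‖ ≤ 2 * η + 2 * Real.pi * ε * (|(k : ℝ)| * R * d) := by
    have e1 : c * (E - 1) = (Ay - c) - (Ay - E * Ax) - E * (Ax - c) := by ring
    rw [e1]
    have e2 : ‖E * (Ax - c)‖ < η := by rw [norm_mul, hEn, one_mul]; exact hx
    calc ‖(Ay - c) - (Ay - E * Ax) - E * (Ax - c)‖
        ≤ ‖Ay - c‖ + ‖Ay - E * Ax‖ + ‖E * (Ax - c)‖ :=
          (norm_sub_le _ _).trans (add_le_add_left (norm_sub_le _ _) _)
      _ ≤ 2 * η + 2 * Real.pi * ε * (|(k : ℝ)| * R * d) := by linarith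
  rw [norm_mul] at hcE
  calc ‖c‖ * (4 * (|(k : ℝ)| * R * d)) ≤ ‖c‖ * ‖E - 1‖ := by gcongr
    _ ≤ _ := hcE

end Pool.Agent.H.MP_96e181_an.Mix
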