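import Mathlib
import Pool.Agent.H.MP_96e181_an.mix.Hyp

set_option autoImplicit false

namespace Pool.Agent.H.MP_96e181_an.Mix

open MeasureTheory Set Metric Finset
open scoped ENNReal ComplexConjugate

/-- Normalised Dirichlet kernel. -/
noncomputable def DK (N : ℕ) (t : UnitAddCircle) : ℂ :=
  (N : ℂ)⁻¹ * ∑ n ∈ range N, (fourier (n : ℤ) t : ℂ)

/-- Normalised Fejer kernel. -/
noncomputable def KK (N : ℕ) (t : UnitAddCircle) : ℝ := ‖DK N t‖ ^ 2

theorem KK_nonneg (N : ℕ) (t : UnitAddCircle) : 0 ≤ KK N t := by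
  unfold KK; positivity

theorem norm_DK_le (N : ℕ) (t : UnitAddCircle) : ‖DK N t‖ ≤ 1 := by
  unfold DK
  rw [norm_mul, norm_inv, Complex.norm_natCast]
  have h1 : ‖∑ n ∈ range N, (fourier (n : ℤ) t : ℂ)‖ ≤ N := by
    refine (norm_sum_le _ _).trans ?_
    simp
  rcases Nat.eq_zero_or_pos N with h | h
  · subst h; simp
  · have hN : (0:ℝ) < N := by exact_mod_cast h
    calc (N : ℝ)⁻¹ * ‖∑ n ∈ range N, (fourier (n : ℤ) t : ℂ)‖ ≤ (N : ℝ)⁻¹ * N := by gcongr
      _ = 1 := by field_simp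

theorem KK_le_one (N : ℕ) (t : UnitAddCircle) : KK N t ≤ 1 := by
  unfold KK
  have := norm_DK_le N t
  nlinarith [norm_nonneg (DK N t)]

theorem continuous_DK (N : ℕ) : Continuous (DK N) := by
  unfold DK
  exact continuous_const.mul (continuous_finsetSum _ (fun s _ => (fourier (s : ℤ)).continuous))

theorem continuous_KK (N : ℕ) : Continuous (KK N) := (continuous_DK N).norm.pow 2

theorem norm_fourier_sub_one_le (n : ℕ) (t : UnitAddCircle) :
    ‖(fourier (n : ℤ) t : ℂ) - 1‖ ≤ 2 * Real.pi * n * ‖t‖ := by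
  obtain ⟨δ, hδ, hδn⟩ := exists_lift t
  rw [← hδn, ← hδ, fourier_coe_apply]
  have e : (2 * Real.pi * Complex.I * ((n : ℤ) : ℂ) * δ / ((1:ℝ) : ℂ)) =
      Complex.I * ((2 * Real.pi * n * δ : ℝ) : ℂ) := by
    push_cast; ring
  rw [e]
  refine Real.norm_exp_I_mul_ofReal_sub_one_le.trans ?_
  rw [Real.norm_eq_abs, abs_mul, abs_of_nonneg (by positivity : (0:ℝ) ≤ 2 * Real.pi * n)]

theorem le_norm_fourier_sub_one (t : UnitAddCircle) :
    4 * ‖t‖ ≤ ‖(fourier (1 : ℤ) t : ℂ) - 1‖ := by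
  obtain ⟨δ, hδ, hδn⟩ := exists_lift t
  have hhalf : ‖t‖ ≤ 1 / 2 := by
    have := AddCircle.norm_le_half_period (p := (1:ℝ)) (x := t) one_ne_zero
    simpa using this
  rw [← hδn] at hhalf ⊢
  rw [← hδ, fourier_coe_apply]
  have e : (2 * Real.pi * Complex.I * ((1 : ℤ) : ℂ) * δ / ((1:ℝ) : ℂ)) =
      Complex.I * ((2 * (Real.pi * δ) : ℝ) : ℂ) := by
    push_cast; ring
  rw [e, Complex.norm_exp_I_mul_ofReal_sub_one, norm_mul, Real.norm_ofNat, Real.norm_eq_abs]
  have e1 : |Real.pi * δ| ≤ Real.pi / 2 := by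
    rw [abs_mul, abs_of_pos Real.pi_pos]
    nlinarith [Real.pi_pos]
  have e2 := Real.mul_abs_le_abs_sin e1
  have e3 : 2 * (Real.pi * δ) / 2 = Real.pi * δ := by ring
  rw [e3]
  rw [abs_mul, abs_of_pos Real.pi_pos] at e2
  have e4 : 2 / Real.pi * (Real.pi * |δ|) = 2 * |δ| := by field_simp
  rw [e4] at e2
  linarith

theorem KK_large {N : ℕ} (hN : 0 < N) {t : UnitAddCircle}
    (ht : 4 * Real.pi * N * ‖t‖ ≤ 1) : 1 / 4 ≤ KK N t := by
  have hNr : (0:ℝ) < N := by exact_mod_cast hN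
  have h1 : ‖DK N t - 1‖ ≤ 1 / 2 := by
    have e : DK N t - 1 = (N : ℂ)⁻¹ * ∑ n ∈ range N, ((fourier (n : ℤ) t : ℂ) - 1) := by
      unfold DK
      rw [Finset.sum_sub_distrib, Finset.sum_const, Finset.card_range, nsmul_eq_mul, mul_one,
        mul_sub, inv_mul_cancel₀]
      exact_mod_cast hN.ne'
    rw [e, norm_mul, norm_inv, Complex.norm_natCast]
    have h2 : ‖∑ n ∈ range N, ((fourier (n : ℤ) t : ℂ) - 1)‖ ≤ N * (1 / 2) := by
      refine (norm_sum_le _ _).trans ?_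
      calc ∑ n ∈ range N, ‖(fourier (n : ℤ) t : ℂ) - 1‖ ≤ ∑ n ∈ range N, (1 / 2 : ℝ) := by
            refine Finset.sum_le_sum (fun n hn => ?_)
            refine (norm_fourier_sub_one_le n t).trans ?_
            have h3 : (n : ℝ) ≤ N := by exact_mod_cast (Finset.mem_range.1 hn).le
            have h4 : 2 * Real.pi * n * ‖t‖ ≤ 2 * Real.pi * N * ‖t‖ := by gcongr
            linarith
        _ = N * (1 / 2) := by simp
    calc (N : ℝ)⁻¹ * ‖∑ n ∈ range N, ((fourier (n : ℤ) t : ℂ) - 1)‖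
        ≤ (N : ℝ)⁻¹ * (N * (1 / 2)) := by gcongr
      _ = 1 / 2 := by field_simp
  have h2 : 1 / 2 ≤ ‖DK N t‖ := by
    have h3 : ‖(1:ℂ)‖ ≤ ‖DK N t‖ + ‖DK N t - 1‖ := by
      have : (1:ℂ) = DK N t - (DK N t - 1) := by ring
      conv_lhs => rw [this]
      exact norm_sub_le _ _
    rw [norm_one] at h3
    linarith
  unfold KK
  nlinarith

theorem KK_small {N : ℕ} (hN : 0 < N) {t : UnitAddCircle} {R : ℝ} (hR : 0 < R)
    (ht : R ≤ ‖t‖) : KK N t ≤ 1 / (4 * N ^ 2 * R ^ 2) := by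
  have hNr : (0:ℝ) < N := by exact_mod_cast hN
  have hgeom : ((fourier (1 : ℤ) t : ℂ) - 1) * ∑ n ∈ range N, (fourier (n : ℤ) t : ℂ) =
      (fourier (N : ℤ) t : ℂ) - 1 := by
    have e : ∀ n : ℕ, (fourier (n : ℤ) t : ℂ) = (fourier (1 : ℤ) t : ℂ) ^ n := by
      intro n
      induction n with
      | zero => simp
      | succ n ih => push_cast; rw [fourier_add, ih, pow_succ]
    simp_rw [e]
    rw [mul_comm, geom_sum_mul]
  have h1 : ‖(fourier (1 : ℤ) t : ℂ) - 1‖ * ‖∑ n ∈ range N, (fourier (n : ℤ) t : ℂ)‖ ≤ 2 := by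
    rw [← norm_mul, hgeom]
    calc ‖(fourier (N : ℤ) t : ℂ) - 1‖ ≤ ‖(fourier (N : ℤ) t : ℂ)‖ + ‖(1:ℂ)‖ := norm_sub_le _ _
      _ = 2 := by rw [norm_fourier, norm_one]; norm_num
  have h2 := le_norm_fourier_sub_one t
  have h3 : ‖∑ n ∈ range N, (fourier (n : ℤ) t : ℂ)‖ ≤ 1 / (2 * R) := by
    rw [le_div_iff₀ (by positivity)]
    have h4 : 4 * R * ‖∑ n ∈ range N, (fourier (n : ℤ) t : ℂ)‖ ≤ 2 := by
      calc 4 * R * ‖∑ n ∈ range N, (fourier (n : ℤ) t : ℂ)‖
          ≤ ‖(fourier (1 : ℤ) t : ℂ) - 1‖ * ‖∑ n ∈ range N, (fourier (n : ℤ) t : ℂ)‖ := by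
            gcongr
            linarith
        _ ≤ 2 := h1
    linarith
  unfold KK DK
  rw [norm_mul, norm_inv, Complex.norm_natCast, mul_pow]
  calc ((N : ℝ)⁻¹) ^ 2 * ‖∑ n ∈ range N, (fourier (n : ℤ) t : ℂ)‖ ^ 2
      ≤ ((N : ℝ)⁻¹) ^ 2 * (1 / (2 * R)) ^ 2 := by gcongr
    _ = 1 / (4 * N ^ 2 * R ^ 2) := by field_simp; ring

/-- frequencies -/
def fr (i : ℕ × ℕ) : ℤ := (i.1 : ℤ) - i.2

theorem abs_fr_le {N : ℕ} {i : ℕ × ℕ} (hi : i ∈ range N ×ˢ range N) : |fr i| ≤ N := by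
  rw [Finset.mem_product, Finset.mem_range, Finset.mem_range] at hi
  unfold fr
  rw [abs_le]
  omega

theorem KK_eq (N : ℕ) (t : UnitAddCircle) : ((KK N t : ℝ) : ℂ) =
    ((N : ℂ) ^ 2)⁻¹ * ∑ i ∈ range N ×ˢ range N, (fourier (fr i) t : ℂ) := by
  unfold KK
  rw [Complex.ofReal_pow, ← Complex.mul_conj']
  unfold DK
  rw [map_mul, map_inv₀, map_natCast, map_sum, mul_mul_mul_comm, Finset.sum_mul_sum,
    Finset.sum_product]
  congr 1
  · rw [← mul_inv, sq]
  · refine Finset.sum_congr rfl (fun a _ => Finset.sum_congr rfl (fun b _ => ?_))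
    rw [fourier_mul_conj]
    rfl

theorem fourier_arg_sub (k : ℤ) (x y : UnitAddCircle) :
    (fourier k (x - y) : ℂ) = fourier k x * fourier (-k) y := by
  have h1 : (fourier k ((x - y) + y) : ℂ) = fourier k (x - y) * fourier k y := by
    rw [fourier_apply, fourier_apply, fourier_apply, smul_add, AddCircle.toCircle_add,
      Circle.coe_mul]
  rw [sub_add_cancel] at h1
  rw [h1, mul_assoc, ← fourier_add, add_neg_cancel, fourier_zero, mul_one]

/-- The Fejer average of the measure. -/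
noncomputable def GG (μ : Measure UnitAddCircle) (N : ℕ) (x : UnitAddCircle) : ℝ :=
  ∫ y, KK N (x - y) ∂μ

theorem GG_eq (μ : Measure UnitAddCircle) [IsFiniteMeasure μ] (N : ℕ) (x : UnitAddCircle) :
    ((GG μ N x : ℝ) : ℂ) =
    ((N : ℂ) ^ 2)⁻¹ * ∑ i ∈ range N ×ˢ range N, (fourier (fr i) x : ℂ) * mhat μ (-fr i) := by
  unfold GG
  have e0 : ((∫ y, KK N (x - y) ∂μ : ℝ) : ℂ) = ∫ y, ((KK N (x - y) : ℝ) : ℂ) ∂μ :=
    integral_ofReal.symm
  rw [e0]
  simp_rw [KK_eq, fourier_arg_sub]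
  rw [integral_const_mul, integral_finsetSum]
  · congr 1
    refine Finset.sum_congr rfl (fun i _ => ?_)
    rw [integral_const_mul]
    rfl
  · intro i _
    exact (integrable_fourier μ (-fr i)).const_mul _

theorem prod_eq (μ : Measure UnitAddCircle) [IsFiniteMeasure μ] (N m : ℕ) (x : UnitAddCircle) :
    ((∫ y, KK N (x - y) * KK N (m • (x - y)) ∂μ : ℝ) : ℂ) =
    ((N : ℂ) ^ 2)⁻¹ * ((N : ℂ) ^ 2)⁻¹ * ∑ i ∈ range N ×ˢ range N, ∑ j ∈ range N ×ˢ range N,
      (fourier (fr i) x : ℂ) * fourier (fr j * m) x * mhat μ (-fr j * m + -fr i) := by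
  have e0 : ((∫ y, KK N (x - y) * KK N (m • (x - y)) ∂μ : ℝ) : ℂ) =
      ∫ y, ((KK N (x - y) * KK N (m • (x - y)) : ℝ) : ℂ) ∂μ := integral_ofReal.symm
  rw [e0]
  have e1 : ∀ y : UnitAddCircle, ((KK N (x - y) * KK N (m • (x - y)) : ℝ) : ℂ) =
      ((N : ℂ) ^ 2)⁻¹ * ((N : ℂ) ^ 2)⁻¹ * ∑ i ∈ range N ×ˢ range N, ∑ j ∈ range N ×ˢ range N,
      (fourier (fr i) x : ℂ) * fourier (fr j * m) x * (fourier (-fr j * m + -fr i) y : ℂ) := by
    intro y
    rw [Complex.ofReal_mul, KK_eq, KK_eq, mul_mul_mul_comm, Finset.sum_mul_sum]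
    congr 1
    refine Finset.sum_congr rfl (fun i _ => Finset.sum_congr rfl (fun j _ => ?_))
    rw [fourier_smul, fourier_arg_sub, fourier_arg_sub, fourier_add, neg_mul]
    ring
  simp_rw [e1]
  rw [integral_const_mul, integral_finsetSum]
  · congr 1
    refine Finset.sum_congr rfl (fun i _ => ?_)
    rw [integral_finsetSum]
    · refine Finset.sum_congr rfl (fun j _ => ?_)
      rw [integral_const_mul]
      rfl
    · intro j _
      exact (integrable_fourier μ _).const_mul _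
  · intro i _
    exact integrable_finsetSum _ (fun j _ => (integrable_fourier μ _).const_mul _)

/-- Mixing for the Fejer averages. -/
theorem prod_le {μ : Measure UnitAddCircle} [IsFiniteMeasure μ] {N m : ℕ} {E : ℝ}
    (hN : 0 < N)
    (hE : ∀ k l : ℤ, |k| ≤ N → |l| ≤ N → ‖mhat μ (k * m + l) - mhat μ k * mhat μ l‖ ≤ E)
    (x : UnitAddCircle) :
    ∫ y, KK N (x - y) * KK N (m • (x - y)) ∂μ ≤ GG μ N x * GG μ N (m • x) + E := by
  have hN0 : ((N : ℂ)) ≠ 0 := by exact_mod_cast hN.ne'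
  have hNr : (0:ℝ) < N := by exact_mod_cast hN
  have e1 : (((∫ y, KK N (x - y) * KK N (m • (x - y)) ∂μ) - GG μ N x * GG μ N (m • x) : ℝ) : ℂ) =
      ((N : ℂ) ^ 2)⁻¹ * ((N : ℂ) ^ 2)⁻¹ * ∑ i ∈ range N ×ˢ range N, ∑ j ∈ range N ×ˢ range N,
      (fourier (fr i) x : ℂ) * fourier (fr j * m) x *
        (mhat μ (-fr j * m + -fr i) - mhat μ (-fr j) * mhat μ (-fr i)) := by
    rw [Complex.ofReal_sub, Complex.ofReal_mul, prod_eq, GG_eq, GG_eq, mul_mul_mul_comm,
      Finset.sum_mul_sum, ← mul_sub, ← Finset.sum_sub_distrib]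
    congr 1
    refine Finset.sum_congr rfl (fun i _ => ?_)
    rw [← Finset.sum_sub_distrib]
    refine Finset.sum_congr rfl (fun j _ => ?_)
    rw [fourier_smul]
    ring
  have e2 : (∫ y, KK N (x - y) * KK N (m • (x - y)) ∂μ) - GG μ N x * GG μ N (m • x) ≤ E := by
    refine (le_abs_self _).trans ?_
    rw [← Real.norm_eq_abs, ← Complex.norm_real, e1, norm_mul, norm_mul, norm_inv, norm_pow,
      Complex.norm_natCast]
    have e3 : ‖∑ i ∈ range N ×ˢ range N, ∑ j ∈ range N ×ˢ range N,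
      (fourier (fr i) x : ℂ) * fourier (fr j * m) x *
        (mhat μ (-fr j * m + -fr i) - mhat μ (-fr j) * mhat μ (-fr i))‖ ≤
        (N : ℝ) ^ 2 * ((N : ℝ) ^ 2 * E) := by
      calc _ ≤ ∑ i ∈ range N ×ˢ range N, ∑ j ∈ range N ×ˢ range N, E := by
            refine (norm_sum_le _ _).trans (Finset.sum_le_sum (fun i hi => ?_))
            refine (norm_sum_le _ _).trans (Finset.sum_le_sum (fun j hj => ?_))
            rw [norm_mul, norm_mul, norm_fourier, norm_fourier, one_mul, one_mul]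
            exact hE _ _ (by rw [abs_neg]; exact abs_fr_le hj) (by rw [abs_neg]; exact abs_fr_le hi)
        _ = (N : ℝ) ^ 2 * ((N : ℝ) ^ 2 * E) := by
            simp only [Finset.sum_const, Finset.card_product, Finset.card_range, nsmul_eq_mul]
            push_cast
            ring
    calc ((N : ℝ) ^ 2)⁻¹ * ((N : ℝ) ^ 2)⁻¹ * _ ≤
        ((N : ℝ) ^ 2)⁻¹ * ((N : ℝ) ^ 2)⁻¹ * ((N : ℝ) ^ 2 * ((N : ℝ) ^ 2 * E)) := by gcongr
      _ = E := by field_simp
  linarith

theorem GG_le {μ : Measure UnitAddCircle} [IsProbabilityMeasure μ] {N : ℕ} (hN : 0 < N) {R : ℝ}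
    (hR : 0 < R) (x : UnitAddCircle) :
    GG μ N x ≤ μ.real (ball x R) + 1 / (4 * N ^ 2 * R ^ 2) := by
  unfold GG
  have hc : Continuous (fun y => KK N (x - y)) := (continuous_KK N).comp (continuous_const.sub continuous_id)
  have hint : Integrable (fun y => KK N (x - y)) μ :=
    hc.integrable_of_hasCompactSupport (HasCompactSupport.of_compactSpace _)
  have hpt : ∀ y, KK N (x - y) ≤ (ball x R).indicator (fun _ => (1:ℝ)) y +
      1 / (4 * N ^ 2 * R ^ 2) := by
    intro y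
    by_cases hy : y ∈ ball x R
    · rw [indicator_of_mem hy]
      have h1 := KK_le_one N (x - y)
      have h2 : (0:ℝ) ≤ 1 / (4 * N ^ 2 * R ^ 2) := by positivity
      linarith
    · rw [indicator_of_notMem hy, zero_add]
      refine KK_small hN hR ?_
      rw [mem_ball, not_lt, dist_comm, dist_eq_norm] at hy
      exact hy
  have hi2 : Integrable ((ball x R).indicator (fun _ => (1:ℝ))) μ :=
    (integrable_const _).indicator measurableSet_ball
  calc ∫ y, KK N (x - y) ∂μ ≤ ∫ y, ((ball x R).indicator (fun _ => (1:ℝ)) y +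
      1 / (4 * N ^ 2 * R ^ 2)) ∂μ := integral_mono hint (hi2.add (integrable_const _)) hpt
    _ = μ.real (ball x R) + 1 / (4 * N ^ 2 * R ^ 2) := by
      rw [integral_add hi2 (integrable_const _), integral_indicator measurableSet_ball,
        setIntegral_const, integral_const]
      simp

theorem norm_nsmul_le' (m : ℕ) (t : UnitAddCircle) : ‖m • t‖ ≤ m * ‖t‖ := norm_nsmul_le

/-- The mass of a small ball is at most the product of masses of larger balls. -/
theorem ball_product {μ : Measure UnitAddCircle} [IsProbabilityMeasure μ] {N m : ℕ}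
    (hN : 0 < N) (hm : 0 < m) {E R r : ℝ} (hR : 0 < R)
    (hr : 4 * Real.pi * N * (m * r) ≤ 1)
    (hE : ∀ k l : ℤ, |k| ≤ N → |l| ≤ N → ‖mhat μ (k * m + l) - mhat μ k * mhat μ l‖ ≤ E)
    (x : UnitAddCircle) :
    μ.real (ball x r) ≤ 16 * ((μ.real (ball x R) + 1 / (4 * N ^ 2 * R ^ 2)) *
      (μ.real (ball (m • x) R) + 1 / (4 * N ^ 2 * R ^ 2)) + E) := by
  have hmr : (1:ℝ) ≤ m := by exact_mod_cast hm
  have hNr : (0:ℝ) < N := by exact_mod_cast hN
  have hc : Continuous (fun y => KK N (x - y) * KK N (m • (x - y))) := by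
    have h1 : Continuous (fun y : UnitAddCircle => x - y) := continuous_const.sub continuous_id
    exact ((continuous_KK N).comp h1).mul ((continuous_KK N).comp
      ((continuous_nsmul m).comp h1))
  have hint : Integrable (fun y => KK N (x - y) * KK N (m • (x - y))) μ :=
    hc.integrable_of_hasCompactSupport (HasCompactSupport.of_compactSpace _)
  have h1 : μ.real (ball x r) * (1 / 16) ≤ ∫ y, KK N (x - y) * KK N (m • (x - y)) ∂μ := by
    have e1 : μ.real (ball x r) * (1 / 16) =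
        ∫ y, (ball x r).indicator (fun _ => (1 / 16 : ℝ)) y ∂μ := by
      rw [integral_indicator measurableSet_ball, setIntegral_const, smul_eq_mul]
    rw [e1]
    refine integral_mono ((integrable_const _).indicator measurableSet_ball) hint (fun y => ?_)
    simp only
    by_cases hy : y ∈ ball x r
    · rw [indicator_of_mem hy]
      rw [mem_ball, dist_comm, dist_eq_norm] at hy
      have h2 : 1 / 4 ≤ KK N (x - y) := by
        refine KK_large hN ?_
        have h4 : ‖x - y‖ ≤ m * r := by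
          have : (0:ℝ) ≤ r := (norm_nonneg _).trans hy.le
          nlinarith
        calc 4 * Real.pi * N * ‖x - y‖ ≤ 4 * Real.pi * N * (m * r) := by gcongr
          _ ≤ 1 := hr
      have h3 : 1 / 4 ≤ KK N (m • (x - y)) := by
        refine KK_large hN ?_
        calc 4 * Real.pi * N * ‖m • (x - y)‖ ≤ 4 * Real.pi * N * (m * ‖x - y‖) := by
              gcongr; exact norm_nsmul_le' m _
          _ ≤ 4 * Real.pi * N * (m * r) := by gcongr
          _ ≤ 1 := hr
      nlinarith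
    · rw [indicator_of_notMem hy]
      exact mul_nonneg (KK_nonneg _ _) (KK_nonneg _ _)
  have h2 := prod_le hN hE x
  have h3 := GG_le (μ := μ) hN hR x
  have h4 := GG_le (μ := μ) hN hR (m • x)
  have h5 : 0 ≤ GG μ N x := integral_nonneg (fun y => KK_nonneg _ _)
  have h6 : 0 ≤ GG μ N (m • x) := integral_nonneg (fun y => KK_nonneg _ _)
  have h7 : GG μ N x * GG μ N (m • x) ≤ (μ.real (ball x R) + 1 / (4 * N ^ 2 * R ^ 2)) *
      (μ.real (ball (m • x) R) + 1 / (4 * N ^ 2 * R ^ 2)) :=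
    mul_le_mul h3 h4 h6 (h5.trans h3)
  linarith

end Pool.Agent.H.MP_96e181_an.Mix
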