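import Mathlib
import Pool.Agent.H.MP_96e181_an.mix.Kernel
import Pool.Agent.H.MP_96e181_an.mix.EntStep

set_option autoImplicit false

namespace Pool.Agent.H.MP_96e181_an.Mix

open MeasureTheory Set Metric Finset
open scoped ENNReal ComplexConjugate

theorem real_ball_le_exp {μ : Measure UnitAddCircle} [IsProbabilityMeasure μ] (r K : ℝ)
    (x : UnitAddCircle) : μ.real (ball x r) ≤ Real.exp (-min (phi μ r x) K) := by
  rcases (measureReal_nonneg (μ := μ) (s := ball x r)).eq_or_lt with h | h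
  · rw [← h]; exact (Real.exp_pos _).le
  · calc μ.real (ball x r) = Real.exp (-phi μ r x) := by
          unfold phi; rw [neg_neg, Real.exp_log h]
      _ ≤ Real.exp (-min (phi μ r x) K) := by
          apply Real.exp_le_exp.2
          linarith [min_le_left (phi μ r x) K]

theorem integrable_min {μ : Measure UnitAddCircle} [IsProbabilityMeasure μ] (r : ℝ) {K : ℝ}
    (hK : 0 ≤ K) : Integrable (fun x => min (phi μ r x) K) μ := by
  refine (integrable_const K).mono' ((measurable_phi r).min measurable_const).aestronglyMeasurable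
    (Filter.Eventually.of_forall (fun x => ?_))
  rw [Real.norm_of_nonneg (le_min (phi_nonneg r x) hK)]
  exact min_le_right _ _

/-- Exponential mixing doubles the truncated entropy when the scale exponent is multiplied by a
constant. -/
theorem doubling {μ : Measure UnitAddCircle} [IsProbabilityMeasure μ] {p q : ℕ} (hp : 2 ≤ p)
    (hq : 2 ≤ q) (hμp : MeasurePreserving (fun x : UnitAddCircle => p • x) μ μ)
    {ρ : ℝ} (hρ : 0 < ρ) {C c : ℝ} {D : ℕ} (hc : 0 < c)
    (hmix : ∀ k l : ℤ, ∀ a : ℕ, ‖mhat μ (k * (p : ℤ) ^ a + l) - mhat μ k * mhat μ l‖ ≤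
      C * (1 + |(k : ℝ)| + |(l : ℝ)|) ^ D * Real.exp (-(c * a))) :
    ∃ A : ℕ, 2 ≤ A ∧ ∀ J : ℕ, 1 ≤ J → ∀ K : ℝ, 0 ≤ K → K ≤ J →
      2 * (∫ x, min (phi μ (ρ / (q : ℝ) ^ J) x) K ∂μ) - Real.log 80 ≤
        ∫ x, min (phi μ (ρ / (q : ℝ) ^ (A * J)) x) (2 * K) ∂μ := by
  have hp0 : (0:ℝ) < p := by positivity
  have hq0 : (0:ℝ) < q := by positivity
  have hq1 : (1:ℝ) < q := by exact_mod_cast (by omega : 1 < q)
  have hq2 : (2:ℝ) ≤ q := by exact_mod_cast hq
  have hC : 0 ≤ C := by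
    have := (norm_nonneg _).trans (hmix 0 0 0)
    simpa using this
  -- the kernel size
  obtain ⟨N₀, hN₀⟩ := exists_nat_gt (1 / (2 * ρ))
  have hN₀r : 1 ≤ 2 * (N₀ : ℝ) * ρ := by
    rw [div_lt_iff₀ (by positivity)] at hN₀
    linarith
  have hN₀0 : (0:ℝ) < N₀ := by
    by_contra hcon
    push Not at hcon
    have : 2 * (N₀ : ℝ) * ρ ≤ 0 := by
      have : (N₀ : ℝ) * ρ ≤ 0 := mul_nonpos_of_nonpos_of_nonneg hcon hρ.le
      linarith
    linarith
  have hN₀n : 0 < N₀ := by exact_mod_cast hN₀0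
  -- the mixing time
  set C' : ℝ := max 1 (C * (3 * N₀) ^ D) with hC'
  have hC'1 : 1 ≤ C' := le_max_left _ _
  obtain ⟨A₁, hA₁⟩ := exists_nat_ge (Real.log (C' * (q : ℝ) ^ (2 * D) * Real.exp 2) / c)
  have hA₁' : C' * (q : ℝ) ^ (2 * D) * Real.exp (-(c * A₁)) ≤ Real.exp (-2) := by
    rw [div_le_iff₀ hc] at hA₁
    have h1 : C' * (q : ℝ) ^ (2 * D) * Real.exp 2 ≤ Real.exp (A₁ * c) := by
      rw [← Real.log_le_iff_le_exp (by positivity)]
      exact hA₁
    have h2 : Real.exp (-(c * A₁)) = (Real.exp (A₁ * c))⁻¹ := by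
      rw [← Real.exp_neg]; ring_nf
    rw [h2, Real.exp_neg, ← div_eq_mul_inv, div_le_iff₀ (Real.exp_pos _)]
    rw [← div_eq_inv_mul, le_div_iff₀ (Real.exp_pos _)]
    exact h1
  -- the scale multiplier
  obtain ⟨A₂, hA₂⟩ := pow_unbounded_of_one_lt
    (max 1 (4 * Real.pi * ρ * N₀) * (p : ℝ) ^ A₁ * (q : ℝ) ^ 2) hq1
  set A : ℕ := max A₂ 2 with hA
  have hAq : max 1 (4 * Real.pi * ρ * N₀) * (p : ℝ) ^ A₁ * (q : ℝ) ^ 2 ≤ (q : ℝ) ^ A :=
    hA₂.le.trans (pow_le_pow_right₀ hq1.le (le_max_left _ _))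
  refine ⟨A, le_max_right _ _, fun J hJ K hK0 hKJ => ?_⟩
  have hJ1 : (1:ℝ) ≤ J := by exact_mod_cast hJ
  set R : ℝ := ρ / (q : ℝ) ^ J with hR
  have hR0 : 0 < R := by positivity
  set r : ℝ := ρ / (q : ℝ) ^ (A * J) with hr
  have hr0 : 0 < r := by positivity
  set N : ℕ := N₀ * q ^ (2 * J) with hN
  have hNr : (N : ℝ) = N₀ * (q : ℝ) ^ (2 * J) := by rw [hN]; push_cast; rfl
  have hNpos : 0 < N := by positivity
  have hN1 : (1:ℝ) ≤ N := by exact_mod_cast hNpos
  set m : ℕ := p ^ (A₁ * J) with hm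
  have hmr : (m : ℝ) = (p : ℝ) ^ (A₁ * J) := by rw [hm]; push_cast; rfl
  have hmpos : 0 < m := by positivity
  set E : ℝ := Real.exp (-(2 * J)) with hE
  -- tail
  have hτ : 1 / (4 * (N : ℝ) ^ 2 * R ^ 2) ≤ Real.exp (-K) := by
    have h1 : (4 * (N : ℝ) ^ 2 * R ^ 2) = (2 * N₀ * ρ) ^ 2 * ((q : ℝ) ^ 2) ^ J := by
      rw [hNr, hR]
      field_simp
      ring
    have h2 : Real.exp K ≤ 4 * (N : ℝ) ^ 2 * R ^ 2 := by
      rw [h1]
      have h3 : Real.exp K ≤ Real.exp J := Real.exp_le_exp.2 hKJ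
      have h4 : Real.exp J ≤ ((q : ℝ) ^ 2) ^ J := by
        have : Real.exp (J : ℝ) = Real.exp 1 ^ J := by
          rw [← Real.exp_nat_mul, mul_one]
        rw [this]
        have h5 : Real.exp 1 ≤ (q : ℝ) ^ 2 := by
          have := Real.exp_one_lt_d9
          nlinarith
        gcongr
      have h6 : (1:ℝ) ≤ (2 * N₀ * ρ) ^ 2 := by nlinarith
      calc Real.exp K ≤ 1 * ((q : ℝ) ^ 2) ^ J := by linarith
        _ ≤ (2 * N₀ * ρ) ^ 2 * ((q : ℝ) ^ 2) ^ J := by gcongr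
    rw [Real.exp_neg, one_div]
    exact inv_anti₀ (Real.exp_pos _) h2
  -- mixing error
  have hEle : ∀ k l : ℤ, |k| ≤ N → |l| ≤ N → ‖mhat μ (k * m + l) - mhat μ k * mhat μ l‖ ≤ E := by
    intro k l hk hl
    have hmz : ((m : ℕ) : ℤ) = (p : ℤ) ^ (A₁ * J) := by rw [hm]; push_cast; rfl
    rw [hmz]
    refine (hmix k l (A₁ * J)).trans ?_
    have hk' : |(k : ℝ)| ≤ N := by exact_mod_cast hk
    have hl' : |(l : ℝ)| ≤ N := by exact_mod_cast hl
    have h1 : (1 + |(k : ℝ)| + |(l : ℝ)|) ^ D ≤ (3 * (N : ℝ)) ^ D := by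
      apply pow_le_pow_left₀ (by positivity)
      linarith
    calc C * (1 + |(k : ℝ)| + |(l : ℝ)|) ^ D * Real.exp (-(c * (A₁ * J : ℕ)))
        ≤ C * (3 * (N : ℝ)) ^ D * Real.exp (-(c * (A₁ * J : ℕ))) := by gcongr
      _ = (C * (3 * N₀) ^ D) * ((q : ℝ) ^ (2 * D) * Real.exp (-(c * A₁))) ^ J := by
          rw [mul_pow ((q : ℝ) ^ (2 * D)), ← Real.exp_nat_mul, hNr, mul_pow, mul_pow, mul_pow,
            ← pow_mul, ← pow_mul]
          have e1 : 2 * J * D = 2 * D * J := by ring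
          rw [e1]
          have e2 : -(c * ((A₁ * J : ℕ) : ℝ)) = (J : ℝ) * -(c * A₁) := by push_cast; ring
          rw [e2]
          ring
      _ ≤ C' ^ J * ((q : ℝ) ^ (2 * D) * Real.exp (-(c * A₁))) ^ J := by
          gcongr
          calc C * (3 * N₀) ^ D ≤ C' := le_max_right _ _
            _ = C' ^ 1 := (pow_one _).symm
            _ ≤ C' ^ J := pow_le_pow_right₀ hC'1 hJ
      _ = (C' * (q : ℝ) ^ (2 * D) * Real.exp (-(c * A₁))) ^ J := by
          rw [← mul_pow, mul_assoc]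
      _ ≤ (Real.exp (-2)) ^ J := by gcongr
      _ = E := by rw [hE, ← Real.exp_nat_mul]; ring_nf
  -- scales
  have hscale : 4 * Real.pi * N * (m * r) ≤ 1 := by
    have h1 : 4 * Real.pi * N * (m * r) =
        (4 * Real.pi * ρ * N₀) * ((p : ℝ) ^ A₁ * (q : ℝ) ^ 2) ^ J / ((q : ℝ) ^ A) ^ J := by
      rw [hNr, hmr, hr, mul_pow, ← pow_mul, ← pow_mul, ← pow_mul]
      ring
    rw [h1, div_le_one (by positivity)]
    calc (4 * Real.pi * ρ * N₀) * ((p : ℝ) ^ A₁ * (q : ℝ) ^ 2) ^ J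
        ≤ (max 1 (4 * Real.pi * ρ * N₀)) ^ J * ((p : ℝ) ^ A₁ * (q : ℝ) ^ 2) ^ J := by
          gcongr
          calc (4 * Real.pi * ρ * N₀) ≤ max 1 (4 * Real.pi * ρ * N₀) := le_max_right _ _
            _ = (max 1 (4 * Real.pi * ρ * N₀)) ^ 1 := (pow_one _).symm
            _ ≤ (max 1 (4 * Real.pi * ρ * N₀)) ^ J := pow_le_pow_right₀ (le_max_left _ _) hJ
      _ = (max 1 (4 * Real.pi * ρ * N₀) * (p : ℝ) ^ A₁ * (q : ℝ) ^ 2) ^ J := by
          rw [← mul_pow, ← mul_assoc (max 1 (4 * Real.pi * ρ * N₀))]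
      _ ≤ ((q : ℝ) ^ A) ^ J := by gcongr
  -- the invariant map
  have hT : MeasurePreserving (fun x : UnitAddCircle => m • x) μ μ := mp_pow hμp (A₁ * J)
  set b : UnitAddCircle → ℝ := fun x => min (phi μ R x) K with hb
  have hbm : Measurable b := (measurable_phi R).min measurable_const
  have hbi : Integrable b μ := integrable_min R hK0
  have hpt : ∀ᵐ x ∂μ, b x + b (m • x) - Real.log 80 ≤ min (phi μ r x) (2 * K) := by
    filter_upwards [ae_pos' (μ := μ) hr0] with x hx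
    have h1 := ball_product (μ := μ) hNpos hmpos hR0 hscale hEle x
    set e₁ := Real.exp (-b x) with he₁
    set e₂ := Real.exp (-b (m • x)) with he₂
    have hbK : b x ≤ K := min_le_right _ _
    have hbK' : b (m • x) ≤ K := min_le_right _ _
    have g1 : μ.real (ball x R) ≤ e₁ := real_ball_le_exp R K x
    have g2 : μ.real (ball (m • x) R) ≤ e₂ := real_ball_le_exp R K (m • x)
    have t1 : 1 / (4 * (N : ℝ) ^ 2 * R ^ 2) ≤ e₁ :=
      hτ.trans (Real.exp_le_exp.2 (by linarith))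
    have t2 : 1 / (4 * (N : ℝ) ^ 2 * R ^ 2) ≤ e₂ :=
      hτ.trans (Real.exp_le_exp.2 (by linarith))
    have he₁0 : 0 < e₁ := Real.exp_pos _
    have he₂0 : 0 < e₂ := Real.exp_pos _
    have hE2 : E ≤ e₁ * e₂ := by
      rw [hE, he₁, he₂, ← Real.exp_add]
      apply Real.exp_le_exp.2
      linarith
    have hτ0 : (0:ℝ) ≤ 1 / (4 * (N : ℝ) ^ 2 * R ^ 2) := by positivity
    have h2 : (μ.real (ball x R) + 1 / (4 * N ^ 2 * R ^ 2)) *
      (μ.real (ball (m • x) R) + 1 / (4 * N ^ 2 * R ^ 2)) ≤ (2 * e₁) * (2 * e₂) := by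
      apply mul_le_mul
      · linarith
      · linarith
      · have := measureReal_nonneg (μ := μ) (s := ball (m • x) R)
        linarith
      · positivity
    have h3 : μ.real (ball x r) ≤ 80 * (e₁ * e₂) := by
      calc μ.real (ball x r) ≤ 16 * ((2 * e₁) * (2 * e₂) + e₁ * e₂) := by linarith
        _ = 80 * (e₁ * e₂) := by ring
    have h4 : Real.log (μ.real (ball x r)) ≤ Real.log 80 - b x - b (m • x) := by
      calc Real.log (μ.real (ball x r)) ≤ Real.log (80 * (e₁ * e₂)) := Real.log_le_log hx h3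
        _ = Real.log 80 - b x - b (m • x) := by
          rw [Real.log_mul (by norm_num) (by positivity), he₁, he₂, ← Real.exp_add,
            Real.log_exp]
          ring
    have h80 : 0 ≤ Real.log 80 := Real.log_nonneg (by norm_num)
    refine le_min ?_ (by linarith)
    unfold phi
    linarith
  have hbT : ∫ x, b (m • x) ∂μ = ∫ x, b x ∂μ := by
    have h1 : ∫ x, b x ∂(μ.map (fun x : UnitAddCircle => m • x)) = ∫ x, b (m • x) ∂μ :=
      integral_map hT.measurable.aemeasurable hbm.aestronglyMeasurable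
    rw [hT.map_eq] at h1
    exact h1.symm
  have hbTi : Integrable (fun x => b (m • x)) μ := hT.integrable_comp_of_integrable hbi
  have hi2 : Integrable (fun x => b x + b (m • x)) μ := hbi.add hbTi
  have hi3 : Integrable (fun x => b x + b (m • x) - Real.log 80) μ :=
    hi2.sub (integrable_const _)
  have hfin := integral_mono_ae hi3 (integrable_min r (by positivity : 0 ≤ 2 * K)) hpt
  have e1 : ∫ x, (b x + b (m • x) - Real.log 80) ∂μ =
      2 * (∫ x, b x ∂μ) - Real.log 80 := by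
    rw [integral_sub hi2 (integrable_const _), integral_add hbi hbTi, hbT, integral_const]
    simp
    ring
  rw [e1] at hfin
  exact hfin

end Pool.Agent.H.MP_96e181_an.Mix
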