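import Mathlib
import Pool.Agent.H.MP_96e181_an.mix.Hyp

set_option autoImplicit false

namespace Pool.Agent.H.MP_96e181_an.Mix

open MeasureTheory Set Metric Finset
open scoped ENNReal ComplexConjugate

/-- The correlation defect of the pair `v = (a, b)` at the frequency `k`. -/
noncomputable def kap (p q : ℕ) (μ : Measure UnitAddCircle) (k : ℤ) (v : ℕ × ℕ) : ℝ :=
  ‖mhat μ (k * ((p : ℤ) ^ v.1 - (q : ℤ) ^ v.2)) - mhat μ k * conj (mhat μ k)‖

/-- The strip of pairs `(a, b)` with `p ^ a` close to `q ^ b`. -/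
def Strip (p q : ℕ) (ε : ℝ) (v : ℕ × ℕ) : Prop :=
  (p : ℝ) ^ v.1 ≤ (1 + ε) * (q : ℝ) ^ v.2 ∧ (q : ℝ) ^ v.2 ≤ (1 + ε) * (p : ℝ) ^ v.1

theorem kap_nonneg (p q : ℕ) (μ : Measure UnitAddCircle) (k : ℤ) (v : ℕ × ℕ) :
    0 ≤ kap p q μ k v := norm_nonneg _

theorem Strip.mono {p q : ℕ} {ε ε' : ℝ} (h : ε ≤ ε') {v : ℕ × ℕ} (hv : Strip p q ε v) :
    Strip p q ε' v := by
  have hp : (0:ℝ) ≤ (p : ℝ) ^ v.1 := by positivity
  have hq : (0:ℝ) ≤ (q : ℝ) ^ v.2 := by positivity
  constructor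
  · nlinarith [hv.1]
  · nlinarith [hv.2]

theorem sum_le_of_injOn {f : ℕ × ℕ → ℝ} {F : Finset ℕ} {g : ℕ → ℕ × ℕ} (hg : Set.InjOn g F)
    {B : ℝ} {P : ℕ × ℕ → Prop} (hB : ∀ F' : Finset (ℕ × ℕ), (∀ v ∈ F', P v) → ∑ v ∈ F', f v ≤ B)
    (hP : ∀ t ∈ F, P (g t)) : ∑ t ∈ F, f (g t) ≤ B := by
  classical
  rw [← Finset.sum_image hg]
  refine hB _ (fun v hv => ?_)
  obtain ⟨t, ht, rfl⟩ := Finset.mem_image.1 hv
  exact hP t ht

theorem corr_pos {p q : ℕ} (hp : 2 ≤ p) (hq : 2 ≤ q) {μ : Measure UnitAddCircle}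
    (hμp : MeasurePreserving (fun x : UnitAddCircle => p • x) μ μ)
    (hμq : MeasurePreserving (fun x : UnitAddCircle => q • x) μ μ) {k : ℤ} {ε R : ℝ}
    (hε : 0 < ε)
    {i l i' l' : ℕ} (hi : i ≤ i') (hl : l' ≤ l)
    (h1 : R ≤ (p : ℝ) ^ i * (q : ℝ) ^ l) (h2 : (p : ℝ) ^ i * (q : ℝ) ^ l ≤ (1 + ε) * R)
    (h3 : R ≤ (p : ℝ) ^ i' * (q : ℝ) ^ l') (h4 : (p : ℝ) ^ i' * (q : ℝ) ^ l' ≤ (1 + ε) * R) :
    ‖mhat μ (k * ((p ^ i' * q ^ l' : ℕ) : ℤ) - k * ((p ^ i * q ^ l : ℕ) : ℤ)) -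
      mhat μ k * conj (mhat μ k)‖ ≤ kap p q μ k (i' - i, l - l') ∧
      Strip p q ε (i' - i, l - l') := by
  obtain ⟨a, rfl⟩ := Nat.exists_eq_add_of_le hi
  obtain ⟨b, rfl⟩ := Nat.exists_eq_add_of_le hl
  have ea : i + a - i = a := by omega
  have eb : l' + b - l' = b := by omega
  rw [ea, eb]
  have hw : (0:ℝ) < (p : ℝ) ^ i * (q : ℝ) ^ l' := by positivity
  have e1 : (p : ℝ) ^ (i + a) * (q : ℝ) ^ l' = (p : ℝ) ^ a * ((p : ℝ) ^ i * (q : ℝ) ^ l') := by
    rw [pow_add]; ring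
  have e2 : (p : ℝ) ^ i * (q : ℝ) ^ (l' + b) = (q : ℝ) ^ b * ((p : ℝ) ^ i * (q : ℝ) ^ l') := by
    rw [pow_add]; ring
  rw [e1] at h3 h4
  rw [e2] at h1 h2
  have hcond : (p : ℝ) ^ a ≤ (1 + ε) * (q : ℝ) ^ b ∧ (q : ℝ) ^ b ≤ (1 + ε) * (p : ℝ) ^ a := by
    constructor
    · refine le_of_mul_le_mul_right ?_ hw
      calc (p : ℝ) ^ a * ((p : ℝ) ^ i * (q : ℝ) ^ l') ≤ (1 + ε) * R := h4
        _ ≤ (1 + ε) * ((q : ℝ) ^ b * ((p : ℝ) ^ i * (q : ℝ) ^ l')) := by gcongr
        _ = (1 + ε) * (q : ℝ) ^ b * ((p : ℝ) ^ i * (q : ℝ) ^ l') := by ring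
    · refine le_of_mul_le_mul_right ?_ hw
      calc (q : ℝ) ^ b * ((p : ℝ) ^ i * (q : ℝ) ^ l') ≤ (1 + ε) * R := h2
        _ ≤ (1 + ε) * ((p : ℝ) ^ a * ((p : ℝ) ^ i * (q : ℝ) ^ l')) := by gcongr
        _ = (1 + ε) * (p : ℝ) ^ a * ((p : ℝ) ^ i * (q : ℝ) ^ l') := by ring
  refine ⟨?_, hcond⟩
  unfold kap
  have e3 : k * ((p ^ (i + a) * q ^ l' : ℕ) : ℤ) - k * ((p ^ i * q ^ (l' + b) : ℕ) : ℤ) =
      (k * ((p : ℤ) ^ a - (q : ℤ) ^ b)) * ((p ^ i * q ^ l' : ℕ) : ℤ) := by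
    push_cast
    rw [pow_add, pow_add]; ring
  rw [e3, mhat_mul (mp_mul (mp_pow hμp i) (mp_pow hμq l'))]

/-- The sets of points with good hypotenuse averages. -/
theorem good_sets {p q : ℕ} (hp : 2 ≤ p) (hq : 2 ≤ q)
    (h : Irrational (Real.log (p : ℝ) / Real.log (q : ℝ))) {μ : Measure UnitAddCircle}
    [IsProbabilityMeasure μ]
    (hμp : MeasurePreserving (fun x : UnitAddCircle => p • x) μ μ)
    (hμq : MeasurePreserving (fun x : UnitAddCircle => q • x) μ μ) {k : ℤ} (hk : k ≠ 0)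
    (hck : mhat μ k ≠ 0) {ε₀ : ℝ} (hε₀ : 0 < ε₀) {δ V : ℝ} (hδ : 0 ≤ δ) (hV : 0 ≤ V)
    (hsum : ∀ (n : ℕ) (F : Finset (ℕ × ℕ)), (∀ v ∈ F, v.1 ≤ n ∧ Strip p q ε₀ v) →
      ∑ v ∈ F, kap p q μ k v ≤ V * ((n : ℝ) + 1) ^ δ) :
    ∃ C : ℝ, 0 ≤ C ∧ ∀ j : ℕ, 1 ≤ j → ∃ G : Set UnitAddCircle, MeasurableSet G ∧
      μ.real Gᶜ ≤ C * (j : ℝ) ^ δ / j ∧ ∀ x ∈ G, ∀ y ∈ G,
        dist y x < (2 * |(k : ℝ)|)⁻¹ / (q : ℝ) ^ j →
          dist y x < (2 * |(k : ℝ)|)⁻¹ / (q : ℝ) ^ (j + 1) := by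
  set c := mhat μ k with hc
  have hc0 : 0 < ‖c‖ := norm_pos_iff.2 hck
  have hp1 : (1:ℝ) < p := by exact_mod_cast (by omega : 1 < p)
  have hq1 : (1:ℝ) < q := by exact_mod_cast (by omega : 1 < q)
  have hq0 : (0:ℝ) < q := by positivity
  have hk0 : (0:ℝ) < |(k : ℝ)| := by
    rw [abs_pos]; exact_mod_cast hk
  set ε : ℝ := min ε₀ (‖c‖ / Real.pi) with hε
  have hεpos : 0 < ε := lt_min hε₀ (div_pos hc0 Real.pi_pos)
  have hεc : Real.pi * ε ≤ ‖c‖ := by
    have : ε ≤ ‖c‖ / Real.pi := min_le_right _ _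
    rw [le_div_iff₀ Real.pi_pos] at this
    linarith
  obtain ⟨B, hB, hwalk⟩ := walk hp hq h hεpos
  have hBr : (0:ℝ) < B := by exact_mod_cast hB
  -- bound for the exponents of `p`
  obtain ⟨C₂, hC₂⟩ := exists_nat_ge ((Real.log (1 + ε) + Real.log q) / Real.log p)
  have hlp : 0 < Real.log p := Real.log_pos hp1
  have hlq : 0 < Real.log q := Real.log_pos hq1
  have hlε : 0 ≤ Real.log (1 + ε) := Real.log_nonneg (by linarith)
  rw [div_le_iff₀ hlp] at hC₂
  set η : ℝ := ‖c‖ / (4 * q) with hη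
  have hη0 : 0 < η := by positivity
  set W : ℝ := V * ((C₂ : ℝ) + 1) ^ δ with hW
  have hW0 : 0 ≤ W := by positivity
  refine ⟨(2 + 2 * W) * B / η ^ 2, by positivity, fun j hj => ?_⟩
  have hj1 : (1:ℝ) ≤ j := by exact_mod_cast hj
  have hjr : (0:ℝ) < j := by linarith
  set T0 : ℝ := W * (j : ℝ) ^ δ with hT0
  have hT0' : 0 ≤ T0 := by positivity
  obtain ⟨i, l, hmono, hval⟩ := hwalk j
  have hibound : ∀ s, s ≤ j / B → i s ≤ C₂ * j := by
    intro s hs
    have h1 := (hval s hs).2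
    have h2 : (p : ℝ) ^ i s ≤ (1 + ε) * (q : ℝ) ^ j := by
      refine le_trans ?_ h1
      have : (1:ℝ) ≤ (q : ℝ) ^ l s := one_le_pow₀ hq1.le
      have hp' : (0:ℝ) ≤ (p : ℝ) ^ i s := by positivity
      nlinarith
    have h3 := Real.log_le_log (by positivity) h2
    rw [Real.log_pow, Real.log_mul (by positivity) (by positivity), Real.log_pow] at h3
    have h4 : (i s : ℝ) * Real.log p ≤ (C₂ * j : ℝ) * Real.log p := by
      calc (i s : ℝ) * Real.log p ≤ Real.log (1 + ε) + j * Real.log q := h3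
        _ ≤ j * (Real.log (1 + ε) + Real.log q) := by nlinarith
        _ ≤ j * (C₂ * Real.log p) := by gcongr
        _ = (C₂ * j : ℝ) * Real.log p := by ring
    have h5 := le_of_mul_le_mul_right h4 hlp
    exact_mod_cast h5
  have hsum' : ∀ F : Finset (ℕ × ℕ), (∀ v ∈ F, v.1 ≤ C₂ * j ∧ Strip p q ε v) →
      ∑ v ∈ F, kap p q μ k v ≤ T0 := by
    intro F hF
    refine (hsum (C₂ * j) F (fun v hv =>
      ⟨(hF v hv).1, (hF v hv).2.mono (min_le_left _ _)⟩)).trans ?_
    rw [hT0, hW, mul_assoc, ← Real.mul_rpow (by positivity) (by positivity)]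
    gcongr
    push_cast
    nlinarith
  set S : ℕ := j / B + 1 with hS
  have hSpos : 0 < S := Nat.succ_pos _
  set n : ℕ → ℕ := fun s => p ^ i s * q ^ l s with hn
  have hnr : ∀ s, (n s : ℝ) = (p : ℝ) ^ i s * (q : ℝ) ^ l s := by
    intro s; rw [hn]; push_cast; rfl
  have hcn : ∀ s, s < S → mhat μ (k * n s) = c := fun s _ =>
    mhat_mul (mp_mul (mp_pow hμp (i s)) (mp_pow hμq (l s))) k
  -- sums of correlations
  have hcorr : ∀ s, s < S → ∑ t ∈ range S, ‖mhat μ (k * n s - k * n t) - c * conj c‖ ≤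
      2 + 2 * T0 := by
    intro s hs
    have hterm : ∀ t ∈ range S, ‖mhat μ (k * n s - k * n t) - c * conj c‖ ≤
        (if t = s then 2 else 0) +
        ((if t < s then kap p q μ k (i s - i t, l t - l s) else 0) +
        (if s < t then kap p q μ k (i t - i s, l s - l t) else 0)) := by
      intro t ht
      have ht' := Finset.mem_range.1 ht
      rcases lt_trichotomy t s with hts | hts | hts
      · rw [if_neg (by omega), if_pos hts, if_neg (by omega), zero_add, add_zero]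
        obtain ⟨m1, m2⟩ := hmono t s hts (by omega)
        exact (corr_pos hp hq hμp hμq hεpos m1.le m2.le (hval t (by omega)).1
          (hval t (by omega)).2 (hval s (by omega)).1 (hval s (by omega)).2).1
      · rw [if_pos hts, if_neg (by omega), if_neg (by omega), add_zero, add_zero]
        have h1 : ‖mhat μ (k * n s - k * n t)‖ ≤ 1 := norm_mhat_le μ _
        have h2 : ‖c * conj c‖ ≤ 1 := by
          rw [norm_mul, RCLike.norm_conj]
          have := norm_mhat_le μ k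
          rw [← hc] at this
          nlinarith [norm_nonneg c]
        calc ‖mhat μ (k * n s - k * n t) - c * conj c‖
            ≤ ‖mhat μ (k * n s - k * n t)‖ + ‖c * conj c‖ := norm_sub_le _ _
          _ ≤ 2 := by linarith
      · rw [if_neg (by omega), if_neg (by omega), if_pos hts, zero_add, zero_add]
        obtain ⟨m1, m2⟩ := hmono s t hts (by omega)
        have h5 := (corr_pos (k := k) hp hq hμp hμq hεpos m1.le m2.le (hval s (by omega)).1
          (hval s (by omega)).2 (hval t (by omega)).1 (hval t (by omega)).2).1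
        have h6 : ‖mhat μ (k * n s - k * n t) - c * conj c‖ =
            ‖mhat μ (k * n t - k * n s) - c * conj c‖ := by
          have e1 : mhat μ (k * n s - k * n t) = conj (mhat μ (k * n t - k * n s)) := by
            rw [← mhat_neg, neg_sub]
          have e2 : ∀ z : ℂ, conj z - c * conj c = conj (z - c * conj c) := by
            intro z
            rw [map_sub, map_mul, Complex.conj_conj, mul_comm]
          rw [e1, e2, RCLike.norm_conj]
        rw [h6]
        exact h5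
    refine (Finset.sum_le_sum hterm).trans ?_
    rw [Finset.sum_add_distrib, Finset.sum_add_distrib]
    have t1 : ∑ t ∈ range S, (if t = s then (2:ℝ) else 0) ≤ 2 := by
      rw [Finset.sum_ite_eq']
      split_ifs <;> norm_num
    have t2 : ∑ t ∈ range S, (if t < s then kap p q μ k (i s - i t, l t - l s) else 0) ≤ T0 := by
      rw [← Finset.sum_filter]
      refine sum_le_of_injOn (g := fun t => (i s - i t, l t - l s)) ?_ hsum' ?_
      · intro t ht t' ht' heq
        simp only [Finset.coe_filter, Finset.mem_range, mem_ofPred_eq] at ht ht'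
        by_contra hne
        have e1 : i s - i t = i s - i t' := congrArg Prod.fst heq
        have m1 := (hmono t s ht.2 (by omega)).1
        have m2 := (hmono t' s ht'.2 (by omega)).1
        rcases Nat.lt_or_gt_of_ne hne with h7 | h7
        · have := (hmono t t' h7 (by omega)).1
          omega
        · have := (hmono t' t h7 (by omega)).1
          omega
      · intro t ht
        rw [Finset.mem_filter, Finset.mem_range] at ht
        obtain ⟨m1, m2⟩ := hmono t s ht.2 (by omega)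
        refine ⟨?_, (corr_pos (k := k) hp hq hμp hμq hεpos m1.le m2.le (hval t (by omega)).1
          (hval t (by omega)).2 (hval s (by omega)).1 (hval s (by omega)).2).2⟩
        have := hibound s (by omega)
        simp only
        omega
    have t3 : ∑ t ∈ range S, (if s < t then kap p q μ k (i t - i s, l s - l t) else 0) ≤ T0 := by
      rw [← Finset.sum_filter]
      refine sum_le_of_injOn (g := fun t => (i t - i s, l s - l t)) ?_ hsum' ?_
      · intro t ht t' ht' heq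
        simp only [Finset.coe_filter, Finset.mem_range, mem_ofPred_eq] at ht ht'
        by_contra hne
        have e1 : i t - i s = i t' - i s := congrArg Prod.fst heq
        have m1 := (hmono s t ht.2 (by omega)).1
        have m2 := (hmono s t' ht'.2 (by omega)).1
        rcases Nat.lt_or_gt_of_ne hne with h7 | h7
        · have := (hmono t t' h7 (by omega)).1
          omega
        · have := (hmono t' t h7 (by omega)).1
          omega
      · intro t ht
        rw [Finset.mem_filter, Finset.mem_range] at ht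
        obtain ⟨m1, m2⟩ := hmono s t ht.2 (by omega)
        refine ⟨?_, (corr_pos (k := k) hp hq hμp hμq hεpos m1.le m2.le (hval s (by omega)).1
          (hval s (by omega)).2 (hval t (by omega)).1 (hval t (by omega)).2).2⟩
        have := hibound t (by omega)
        simp only
        omega
    linarith
  have hvar := variance_le (μ := μ) hSpos (n := fun s => k * n s) hcn hcorr
  set A : UnitAddCircle → ℂ := fun x => (S : ℂ)⁻¹ * ∑ s ∈ range S, (fourier (k * n s) x : ℂ)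
    with hA
  have hAc : Continuous A := by
    rw [hA]
    exact continuous_const.mul (continuous_finsetSum _ (fun s _ => (fourier (k * n s)).continuous))
  refine ⟨{x | ‖A x - c‖ < η}, ?_, ?_, ?_⟩
  · exact (isOpen_lt (hAc.sub continuous_const).norm continuous_const).measurableSet
  · have hint : Integrable (fun x => ‖A x - c‖ ^ 2) μ :=
      ((hAc.sub continuous_const).norm.pow 2).integrable_of_hasCompactSupport
        (HasCompactSupport.of_compactSpace _)
    have hcheb := mul_meas_ge_le_integral_of_nonneg (μ := μ) (f := fun x => ‖A x - c‖ ^ 2)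
      (Filter.Eventually.of_forall (fun x => by positivity)) hint (η ^ 2)
    have hsub : {x | ‖A x - c‖ < η}ᶜ ⊆ {x | η ^ 2 ≤ ‖A x - c‖ ^ 2} := by
      intro x hx
      simp only [mem_compl_iff, mem_ofPred_eq, not_lt] at hx ⊢
      gcongr
    have hm : μ.real {x | ‖A x - c‖ < η}ᶜ ≤ μ.real {x | η ^ 2 ≤ ‖A x - c‖ ^ 2} :=
      measureReal_mono hsub
    have hSj : (j : ℝ) ≤ B * S := by
      have : j ≤ B * S := by
        have h8 := Nat.div_add_mod j B
        have h9 := Nat.mod_lt j hB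
        rw [hS, Nat.mul_add]
        omega
      exact_mod_cast this
    have hSr : (0:ℝ) < S := by exact_mod_cast hSpos
    have h10 : η ^ 2 * μ.real {x | ‖A x - c‖ < η}ᶜ ≤ (2 + 2 * T0) / S := by
      calc η ^ 2 * μ.real {x | ‖A x - c‖ < η}ᶜ ≤ η ^ 2 * μ.real {x | η ^ 2 ≤ ‖A x - c‖ ^ 2} := by
            gcongr
        _ ≤ ∫ x, ‖A x - c‖ ^ 2 ∂μ := hcheb
        _ ≤ (2 + 2 * T0) / S := by
          simpa [hA] using hvar
    have hjδ : (1:ℝ) ≤ (j : ℝ) ^ δ := Real.one_le_rpow hj1 hδ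
    have h11 : (2 + 2 * T0) / S ≤ (2 + 2 * W) * (j : ℝ) ^ δ * B / j := by
      rw [div_le_div_iff₀ hSr hjr]
      have h12 : 2 + 2 * T0 ≤ (2 + 2 * W) * (j : ℝ) ^ δ := by
        rw [hT0]
        nlinarith
      calc (2 + 2 * T0) * j ≤ (2 + 2 * W) * (j : ℝ) ^ δ * (B * S) := by gcongr
        _ = (2 + 2 * W) * (j : ℝ) ^ δ * B * S := by ring
    have h13 : μ.real {x | ‖A x - c‖ < η}ᶜ ≤ (2 + 2 * W) * (j : ℝ) ^ δ * B / j / η ^ 2 := by
      rw [le_div_iff₀ (by positivity), mul_comm]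
      exact h10.trans h11
    calc μ.real {x | ‖A x - c‖ < η}ᶜ ≤ (2 + 2 * W) * (j : ℝ) ^ δ * B / j / η ^ 2 := h13
      _ = (2 + 2 * W) * B / η ^ 2 * (j : ℝ) ^ δ / j := by ring
  · intro x hx y hy hxy
    by_contra hcon
    push Not at hcon
    have hR : (0:ℝ) < (q : ℝ) ^ j := by positivity
    have ht1 : |(k : ℝ)| * (q : ℝ) ^ j * dist y x < 1 / 2 := by
      calc |(k : ℝ)| * (q : ℝ) ^ j * dist y x
          < |(k : ℝ)| * (q : ℝ) ^ j * ((2 * |(k : ℝ)|)⁻¹ / (q : ℝ) ^ j) := by gcongr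
        _ = 1 / 2 := by field_simp
    have ht2 : 1 / (2 * q) ≤ |(k : ℝ)| * (q : ℝ) ^ j * dist y x := by
      calc 1 / (2 * (q : ℝ)) = |(k : ℝ)| * (q : ℝ) ^ j *
            ((2 * |(k : ℝ)|)⁻¹ / (q : ℝ) ^ (j + 1)) := by rw [pow_succ]; field_simp
        _ ≤ |(k : ℝ)| * (q : ℝ) ^ j * dist y x := by gcongr
    have hpl := pair_lemma (k := k) (S := S) hSpos (n := n) (R := (q : ℝ) ^ j) (ε := ε)
      (fun s hs => by rw [hnr]; exact hval s (by omega)) hR.le (c := c) (η := η) hx hy ht1.le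
    set τ := |(k : ℝ)| * (q : ℝ) ^ j * dist y x with hτ
    have hτ0 : 0 < τ := lt_of_lt_of_le (by positivity) ht2
    have h13 : 2 * Real.pi * ε * τ ≤ 2 * ‖c‖ * τ := by
      have := mul_le_mul_of_nonneg_right hεc hτ0.le
      linarith
    have h14 : ‖c‖ * τ ≤ η := by linarith
    have h15 : ‖c‖ * (1 / (2 * q)) ≤ ‖c‖ * τ := by gcongr
    have h16 : η < ‖c‖ * (1 / (2 * q)) := by
      rw [hη, mul_one_div]
      gcongr
      norm_num
    linarith

end Pool.Agent.H.MP_96e181_an.Mix
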