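import Mathlib
import Pool.Agent.H.MP_96e181_an.mix.EntStep

set_option autoImplicit false

namespace Pool.Agent.H.MP_96e181_an.Mix

open MeasureTheory Set Metric
open scoped ENNReal

theorem log_step {j : ℕ} (hj : 1 ≤ j) :
    (1 + Real.log j) / j ≤ (1 + Real.log ((j : ℝ) + 1)) ^ 2 - (1 + Real.log j) ^ 2 := by
  have hj1 : (1:ℝ) ≤ j := by exact_mod_cast hj
  have hj0 : (0:ℝ) < j := by linarith
  have hl0 : 0 ≤ Real.log j := Real.log_nonneg hj1
  set a := Real.log j with ha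
  have h1 : 1 / ((j : ℝ) + 1) ≤ Real.log ((j : ℝ) + 1) - a := by
    rw [ha, ← Real.log_div (by positivity) (by positivity)]
    have := Real.one_sub_inv_le_log_of_pos (x := ((j : ℝ) + 1) / j) (by positivity)
    refine le_trans (le_of_eq ?_) this
    field_simp
    ring
  set b := Real.log ((j : ℝ) + 1) with hb
  have h2 : 1 / ((j : ℝ) + 1) > 0 := by positivity
  have h3 : a ≤ b := by linarith
  calc (1 + a) / j ≤ (1 / ((j : ℝ) + 1)) * (2 * (1 + a)) := by
        rw [div_le_iff₀ hj0]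
        have : 1 ≤ 2 * (1 / ((j : ℝ) + 1)) * j := by
          rw [mul_one_div, div_mul_eq_mul_div, le_div_iff₀ (by positivity)]
          linarith
        nlinarith
    _ ≤ (b - a) * (2 * (1 + a)) := by
        gcongr
    _ ≤ (b - a) * (2 + a + b) := by
        apply mul_le_mul_of_nonneg_left _ (by linarith)
        linarith
    _ = (1 + b) ^ 2 - (1 + a) ^ 2 := by ring

/-- Upper bound of the entropy from the existence of good sets. -/
theorem ent_upper {μ : Measure UnitAddCircle} [IsProbabilityMeasure μ] {q : ℕ} (hq : 2 ≤ q)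
    {ρ : ℝ} (hρ : 0 < ρ) {C₁ δ : ℝ} (hC₁ : 0 ≤ C₁) (hδ : 0 ≤ δ)
    (hgood : ∀ j : ℕ, 1 ≤ j → ∃ G : Set UnitAddCircle, MeasurableSet G ∧
      μ.real Gᶜ ≤ C₁ * (j : ℝ) ^ δ / j ∧ ∀ x ∈ G, ∀ y ∈ G,
        dist y x < ρ / (q : ℝ) ^ j → dist y x < ρ / (q : ℝ) ^ (j + 1)) :
    ∃ C : ℝ, 0 ≤ C ∧ ∀ J : ℕ, 1 ≤ J →
      ent μ (ρ / (q : ℝ) ^ J) ≤ C * (J : ℝ) ^ δ * (1 + Real.log J) ^ 2 := by
  have hq0 : (0:ℝ) < q := by positivity
  have hq1 : (1:ℝ) ≤ q := by exact_mod_cast (by omega : 1 ≤ q)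
  set K : ℝ := 4 * C₁ + 4 * q with hK
  have hK0 : 0 ≤ K := by positivity
  have hstep : ∀ j : ℕ, 1 ≤ j → ent μ (ρ / (q : ℝ) ^ (j + 1)) ≤ ent μ (ρ / (q : ℝ) ^ j) +
      K * (j : ℝ) ^ δ * ((1 + Real.log j) / j) := by
    intro j hj
    have hj1 : (1:ℝ) ≤ j := by exact_mod_cast hj
    have hj0 : (0:ℝ) < j := by linarith
    have hl0 : 0 ≤ Real.log j := Real.log_nonneg hj1
    have hjδ : (1:ℝ) ≤ (j : ℝ) ^ δ := Real.one_le_rpow hj1 hδ
    obtain ⟨G, hG, hGm, hGp⟩ := hgood j hj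
    have hM : ρ / (q : ℝ) ^ j = q * (ρ / (q : ℝ) ^ (j + 1)) := by
      rw [pow_succ]; field_simp
    have hrR : ρ / (q : ℝ) ^ (j + 1) ≤ ρ / (q : ℝ) ^ j := by
      rw [hM]
      have : 0 < ρ / (q : ℝ) ^ (j + 1) := by positivity
      nlinarith
    have h1 := ent_step (μ := μ) (r := ρ / (q : ℝ) ^ (j + 1)) (R := ρ / (q : ℝ) ^ j) (M := q)
      (by positivity) hrR hM.le hG hGp (Q := (j : ℝ) ^ 2) (by nlinarith)
    have h2 : Real.log ((j : ℝ) ^ 2) = 2 * Real.log j := by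
      rw [Real.log_pow]; push_cast; ring
    rw [h2] at h1
    set X : ℝ := (j : ℝ) ^ δ with hX
    have h3 : μ.real Gᶜ * (2 * Real.log j) ≤ C₁ * X / j * (2 * Real.log j) := by gcongr
    have h4 : 4 * (q : ℝ) / (j : ℝ) ^ 2 ≤ 4 * q * X / j := by
      rw [div_le_div_iff₀ (by positivity) hj0]
      have : (j : ℝ) ≤ X * (j : ℝ) ^ 2 := by nlinarith
      nlinarith
    have h5 : 4 * (C₁ * X / j) + C₁ * X / j * (2 * Real.log j) + 4 * q * X / j ≤
        K * X * ((1 + Real.log j) / j) := by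
      rw [hK]
      have e1 : 4 * (C₁ * X / j) + C₁ * X / j * (2 * Real.log j) + 4 * q * X / j =
        X * ((4 * C₁ + C₁ * (2 * Real.log j) + 4 * q) / j) := by ring
      have e2 : (4 * C₁ + 4 * (q : ℝ)) * X * ((1 + Real.log j) / j) =
        X * (((4 * C₁ + 4 * q) * (1 + Real.log j)) / j) := by ring
      rw [e1, e2]
      gcongr
      nlinarith [mul_nonneg hC₁ hl0, mul_nonneg hq0.le hl0]
    linarith
  refine ⟨|ent μ (ρ / (q : ℝ) ^ 1)| + K, by positivity, fun J hJ => ?_⟩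
  have hJ1 : (1:ℝ) ≤ J := by exact_mod_cast hJ
  have hJδ : (1:ℝ) ≤ (J : ℝ) ^ δ := Real.one_le_rpow hJ1 hδ
  have key : ∀ j : ℕ, 1 ≤ j → j ≤ J → ent μ (ρ / (q : ℝ) ^ j) ≤
      (|ent μ (ρ / (q : ℝ) ^ 1)| + K) * (J : ℝ) ^ δ * (1 + Real.log j) ^ 2 := by
    intro j hj
    induction j, hj using Nat.le_induction with
    | base =>
      intro _
      simp only [Nat.cast_one, Real.log_one, add_zero, one_pow, mul_one]
      have h1 := le_abs_self (ent μ (ρ / (q : ℝ) ^ 1))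
      have h2 := abs_nonneg (ent μ (ρ / (q : ℝ) ^ 1))
      nlinarith
    | succ j hj ih =>
      intro hjJ
      have hj1 : (1:ℝ) ≤ j := by exact_mod_cast hj
      have hj0 : (0:ℝ) < j := by linarith
      have hl0 : 0 ≤ Real.log j := Real.log_nonneg hj1
      have ih' := ih (by omega)
      have h1 := hstep j hj
      have hmono : (j : ℝ) ^ δ ≤ (J : ℝ) ^ δ := by
        apply Real.rpow_le_rpow (by positivity) _ hδ
        exact_mod_cast (by omega : j ≤ J)
      have h1' : K * (j : ℝ) ^ δ * ((1 + Real.log j) / j) ≤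
          K * (J : ℝ) ^ δ * ((1 + Real.log j) / j) := by gcongr
      have h2 := log_step hj
      have hKJ : 0 ≤ K * (J : ℝ) ^ δ := by positivity
      have h3 := mul_le_mul_of_nonneg_left h2 hKJ
      have hle : Real.log j ≤ Real.log ((j : ℝ) + 1) :=
        Real.log_le_log (by linarith) (by linarith)
      have h4 : (1 + Real.log j) ^ 2 ≤ (1 + Real.log ((j : ℝ) + 1)) ^ 2 := by gcongr
      have h5 := mul_le_mul_of_nonneg_left h4
        (mul_nonneg (abs_nonneg (ent μ (ρ / (q : ℝ) ^ 1))) (by positivity : 0 ≤ (J : ℝ) ^ δ))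
      push_cast
      linarith
  exact key J hJ le_rfl

end Pool.Agent.H.MP_96e181_an.Mix
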