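import Mathlib
import Pool.Agent.H.MP_96e181_an.mix.Upper
import Pool.Agent.H.MP_96e181_an.mix.Doubling
import Pool.Agent.H.MP_96e181_an.mix.Good

set_option autoImplicit false

namespace Pool.Agent.H.MP_96e181_an.Mix

open MeasureTheory Set Metric Filter Topology
open scoped ENNReal ComplexConjugate

theorem tendsto_real_ball {μ : Measure UnitAddCircle} [IsProbabilityMeasure μ] [NullSingletonClass μ]
    {ρ : ℝ} (hρ : 0 < ρ) {q : ℕ} (hq : 2 ≤ q) (x : UnitAddCircle) :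
    Tendsto (fun J : ℕ => μ.real (ball x (ρ / (q : ℝ) ^ J))) atTop (𝓝 0) := by
  have hq1 : (1:ℝ) < q := by exact_mod_cast (by omega : 1 < q)
  have h1 : Tendsto (fun r => μ (thickening r {x})) (𝓝[>] 0) (𝓝 (μ {x})) :=
    tendsto_measure_thickening_of_isClosed ⟨1, one_pos, measure_ne_top _ _⟩ isClosed_singleton
  have h2 : Tendsto (fun J : ℕ => ρ / (q : ℝ) ^ J) atTop (𝓝[>] 0) := by
    rw [tendsto_nhdsWithin_iff]
    constructor
    · have h3 : Tendsto (fun J : ℕ => ρ * ((q : ℝ)⁻¹) ^ J) atTop (𝓝 (ρ * 0)) :=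
        (tendsto_pow_atTop_nhds_zero_of_lt_one (by positivity) (inv_lt_one_of_one_lt₀ hq1)).const_mul ρ
      rw [mul_zero] at h3
      refine h3.congr (fun J => ?_)
      rw [inv_pow, div_eq_mul_inv]
    · exact Eventually.of_forall (fun J => by
        have : (0:ℝ) < q := by linarith
        exact mem_Ioi.2 (by positivity))
  have h4 := h1.comp h2
  rw [measure_singleton] at h4
  have h5 := (ENNReal.tendsto_toReal (ENNReal.zero_ne_top)).comp h4
  refine h5.congr (fun J => ?_)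
  simp [Measure.real, thickening_singleton]

theorem tendsto_min {μ : Measure UnitAddCircle} [IsProbabilityMeasure μ] [NullSingletonClass μ]
    {ρ : ℝ} (hρ : 0 < ρ) {q : ℕ} (hq : 2 ≤ q) {K : ℝ} (hK : 0 ≤ K) :
    Tendsto (fun J : ℕ => ∫ x, min (phi μ (ρ / (q : ℝ) ^ J) x) K ∂μ) atTop (𝓝 K) := by
  have hq0 : (0:ℝ) < q := by positivity
  have e1 : ∫ _x : UnitAddCircle, K ∂μ = K := by simp
  have key : Tendsto (fun J : ℕ => ∫ x, min (phi μ (ρ / (q : ℝ) ^ J) x) K ∂μ) atTop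
      (𝓝 (∫ _x : UnitAddCircle, K ∂μ)) := ?_
  · rwa [e1] at key
  refine tendsto_integral_of_dominated_convergence (fun _ => K) (fun J => ?_)
    (integrable_const K) (fun J => ?_) ?_
  · exact ((measurable_phi _).min measurable_const).aestronglyMeasurable
  · refine Eventually.of_forall (fun x => ?_)
    rw [Real.norm_of_nonneg (le_min (phi_nonneg _ x) hK)]
    exact min_le_right _ _
  · have hpos : ∀ᵐ x ∂μ, ∀ J : ℕ, 0 < μ.real (ball x (ρ / (q : ℝ) ^ J)) :=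
      ae_all_iff.2 (fun J => ae_pos' (by positivity))
    filter_upwards [hpos] with x hx
    have h1 := tendsto_real_ball (μ := μ) hρ hq x
    have h2 : Tendsto (fun J : ℕ => μ.real (ball x (ρ / (q : ℝ) ^ J))) atTop (𝓝[>] 0) :=
      tendsto_nhdsWithin_iff.2 ⟨h1, Eventually.of_forall hx⟩
    have h3 := Real.tendsto_log_nhdsGT_zero.comp h2
    have h4 : ∀ᶠ J : ℕ in atTop, K ≤ phi μ (ρ / (q : ℝ) ^ J) x := by
      filter_upwards [h3.eventually (eventually_le_atBot (-K))] with J hJ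
      unfold phi
      simp only [Function.comp] at hJ
      linarith
    refine tendsto_const_nhds.congr' ?_
    filter_upwards [h4] with J hJ
    exact (min_eq_right hJ).symm

/-- The contradiction between the upper bound and the doubling property. -/
theorem no_double {μ : Measure UnitAddCircle} [IsProbabilityMeasure μ] [NullSingletonClass μ]
    {q : ℕ} (hq : 2 ≤ q) {ρ : ℝ} (hρ : 0 < ρ) {C δ : ℝ} (hC : 0 ≤ C)
    (hup : ∀ J : ℕ, 1 ≤ J →
      ent μ (ρ / (q : ℝ) ^ J) ≤ C * (J : ℝ) ^ δ * (1 + Real.log J) ^ 2)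
    {A : ℕ} (hA : 2 ≤ A) (hAδ : (A : ℝ) ^ δ ≤ 3 / 2)
    (hdb : ∀ J : ℕ, 1 ≤ J → ∀ K : ℝ, 0 ≤ K → K ≤ J →
      2 * (∫ x, min (phi μ (ρ / (q : ℝ) ^ J) x) K ∂μ) - Real.log 80 ≤
        ∫ x, min (phi μ (ρ / (q : ℝ) ^ (A * J)) x) (2 * K) ∂μ) : False := by
  have h80 : 0 ≤ Real.log 80 := Real.log_nonneg (by norm_num)
  have hq0 : (0:ℝ) < q := by positivity
  set K₀ : ℝ := Real.log 80 + 2 with hK₀
  have hK₀0 : 0 ≤ K₀ := by positivity
  have hA1 : (1:ℝ) ≤ A := by exact_mod_cast (by omega : 1 ≤ A)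
  have hA0 : (0:ℝ) < A := by linarith
  -- starting scale
  obtain ⟨J₀, hJ₀1, hJ₀K, hJ₀⟩ : ∃ J₀ : ℕ, 1 ≤ J₀ ∧ K₀ ≤ J₀ ∧
      Real.log 80 + 1 ≤ ∫ x, min (phi μ (ρ / (q : ℝ) ^ J₀) x) K₀ ∂μ := by
    have h1 := tendsto_min (μ := μ) hρ hq hK₀0
    have h2 : ∀ᶠ J : ℕ in atTop, Real.log 80 + 1 ≤
        ∫ x, min (phi μ (ρ / (q : ℝ) ^ J) x) K₀ ∂μ :=
      h1.eventually (eventually_ge_nhds (by rw [hK₀]; linarith))
    obtain ⟨J, hJ1, hJ2, hJ3⟩ := ((eventually_ge_atTop 1).and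
      ((tendsto_natCast_atTop_atTop.eventually (eventually_ge_atTop K₀)).and h2)).exists
    exact ⟨J, hJ1, hJ2, hJ3⟩
  have hiter : ∀ n : ℕ, (2:ℝ) ^ n + Real.log 80 ≤
      ∫ x, min (phi μ (ρ / (q : ℝ) ^ (A ^ n * J₀)) x) (2 ^ n * K₀) ∂μ := by
    intro n
    induction n with
    | zero => simpa [add_comm] using hJ₀
    | succ n ih =>
      have h1 : 1 ≤ A ^ n * J₀ := Nat.mul_pos (Nat.pow_pos (by omega)) (by omega)
      have h2 : (2:ℝ) ^ n * K₀ ≤ ((A ^ n * J₀ : ℕ) : ℝ) := by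
        push_cast
        have h3 : (2:ℝ) ≤ A := by exact_mod_cast hA
        gcongr
      have h3 := hdb (A ^ n * J₀) h1 (2 ^ n * K₀) (by positivity) h2
      have e1 : A * (A ^ n * J₀) = A ^ (n + 1) * J₀ := by ring
      have e2 : 2 * ((2:ℝ) ^ n * K₀) = 2 ^ (n + 1) * K₀ := by ring
      rw [e1, e2] at h3
      have e3 : (2:ℝ) ^ (n + 1) = 2 * 2 ^ n := by ring
      rw [e3]
      rw [e3] at h3
      linarith
  have hJ0 : (1:ℝ) ≤ J₀ := by exact_mod_cast hJ₀1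
  have hJ0' : (0:ℝ) < J₀ := by linarith
  set L : ℝ := C * (J₀ : ℝ) ^ δ with hL
  have hL0 : 0 ≤ L := by positivity
  have hbound : ∀ n : ℕ, (2:ℝ) ^ n ≤
      L * (3 / 2) ^ n * (1 + (n * Real.log A + Real.log J₀)) ^ 2 := by
    intro n
    have h1 : 1 ≤ A ^ n * J₀ := Nat.mul_pos (Nat.pow_pos (by omega)) (by omega)
    have h2 := hup _ h1
    have h3 : ∫ x, min (phi μ (ρ / (q : ℝ) ^ (A ^ n * J₀)) x) (2 ^ n * K₀) ∂μ ≤
        ent μ (ρ / (q : ℝ) ^ (A ^ n * J₀)) := by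
      unfold ent
      refine integral_mono (integrable_min _ (by positivity)) (integrable_phi (by positivity))
        (fun x => min_le_left _ _)
    have h4 : Real.log ((A ^ n * J₀ : ℕ) : ℝ) = n * Real.log A + Real.log J₀ := by
      push_cast
      rw [Real.log_mul (by positivity) (by positivity), Real.log_pow]
    have h6 : ((A ^ n * J₀ : ℕ) : ℝ) ^ δ ≤ (3 / 2) ^ n * (J₀ : ℝ) ^ δ := by
      push_cast
      rw [Real.mul_rpow (by positivity) (by positivity)]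
      gcongr
      rw [← Real.rpow_natCast, ← Real.rpow_mul hA0.le, mul_comm, Real.rpow_mul hA0.le,
        Real.rpow_natCast]
      gcongr
    rw [h4] at h2
    have h5 := hiter n
    have h7 : C * ((A ^ n * J₀ : ℕ) : ℝ) ^ δ ≤ L * (3 / 2) ^ n := by
      rw [hL]
      calc C * ((A ^ n * J₀ : ℕ) : ℝ) ^ δ ≤ C * ((3 / 2) ^ n * (J₀ : ℝ) ^ δ) := by gcongr
        _ = C * (J₀ : ℝ) ^ δ * (3 / 2) ^ n := by ring
    have h8 : C * ((A ^ n * J₀ : ℕ) : ℝ) ^ δ * (1 + (n * Real.log A + Real.log J₀)) ^ 2 ≤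
        L * (3 / 2) ^ n * (1 + (n * Real.log A + Real.log J₀)) ^ 2 := by gcongr
    linarith
  -- growth contradiction
  set a := Real.log A with ha
  set b := Real.log (J₀ : ℝ) with hb
  have ha0 : 0 ≤ a := Real.log_nonneg hA1
  have hb0 : 0 ≤ b := Real.log_nonneg hJ0
  have h1 : Tendsto (fun n : ℕ => ((n : ℝ)) ^ 2 / (4 / 3 : ℝ) ^ n) atTop (𝓝 0) :=
    tendsto_pow_const_div_const_pow_of_one_lt 2 (by norm_num)
  have h2 : Tendsto (fun n : ℕ => L * (1 + a + b) ^ 2 * ((n : ℝ) ^ 2 / (4 / 3 : ℝ) ^ n)) atTop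
      (𝓝 0) := by
    simpa using h1.const_mul (L * (1 + a + b) ^ 2)
  obtain ⟨n, hn1, hn2⟩ := ((eventually_ge_atTop 1).and
    (h2.eventually (gt_mem_nhds (show (0:ℝ) < 1 by norm_num)))).exists
  have h3 := hbound n
  have hn : (1:ℝ) ≤ n := by exact_mod_cast hn1
  have h4 : 1 + (n * a + b) ≤ (1 + a + b) * n := by nlinarith
  have h5 : (1 + (n * a + b)) ^ 2 ≤ ((1 + a + b) * n) ^ 2 := by gcongr
  have h6 : (2:ℝ) ^ n ≤ L * (3 / 2) ^ n * ((1 + a + b) * n) ^ 2 := h3.trans (by gcongr)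
  have h7 : L * (1 + a + b) ^ 2 * ((n : ℝ) ^ 2 / (4 / 3 : ℝ) ^ n) =
      L * ((1 + a + b) * n) ^ 2 / (4 / 3 : ℝ) ^ n := by ring
  rw [h7, div_lt_one (by positivity)] at hn2
  have h8 : (2:ℝ) ^ n = (3 / 2) ^ n * (4 / 3) ^ n := by
    rw [← mul_pow]; norm_num
  rw [h8] at h6
  have h9 : (0:ℝ) < (3 / 2) ^ n := by positivity
  have h10 : (3 / 2 : ℝ) ^ n * (4 / 3) ^ n ≤ (3 / 2) ^ n * (L * ((1 + a + b) * n) ^ 2) := by
    linarith
  have h11 := le_of_mul_le_mul_left h10 h9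
  linarith

theorem eq_volume_of_mhat {μ : Measure UnitAddCircle} [IsProbabilityMeasure μ]
    (h : ∀ k : ℤ, k ≠ 0 → mhat μ k = 0) : μ = (volume : Measure UnitAddCircle) := by
  have h1 := Pool.Agent.H.MP_96e181_an.smul_volume_le_of_fourier (μ := μ) (c := 1)
    (fun _ => μ) (fun _ => le_refl _) (fun _ => by simp)
    (fun a ha => by
      have : ∫ x, (fourier a x : ℂ) ∂μ = 0 := h a ha
      rw [this]
      exact tendsto_const_nhds)
  simp only [ENNReal.coe_one, one_smul] at h1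
  refine (Measure.eq_of_le_of_measure_univ_eq h1 ?_).symm
  rw [Pool.Agent.H.MP_96e181_an.volume_univ_eq, measure_univ]

/-- For an exponentially mixing atomless invariant measure and a frequency `k` with nonzero
Fourier coefficient, the mixed correlation sums grow polynomially. -/
theorem exp_mixing {p q m : ℕ} (hp : 2 ≤ p) (hq : 2 ≤ q) (hm : 2 ≤ m)
    (h : Irrational (Real.log (p : ℝ) / Real.log (q : ℝ))) {μ : Measure UnitAddCircle}
    [IsProbabilityMeasure μ] [NullSingletonClass μ]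
    (hμp : MeasurePreserving (fun x : UnitAddCircle => p • x) μ μ)
    (hμq : MeasurePreserving (fun x : UnitAddCircle => q • x) μ μ)
    (hμm : MeasurePreserving (fun x : UnitAddCircle => m • x) μ μ)
    {C c : ℝ} {D : ℕ} (hc : 0 < c)
    (hmix : ∀ k l : ℤ, ∀ a : ℕ, ‖mhat μ (k * (m : ℤ) ^ a + l) - mhat μ k * mhat μ l‖ ≤
      C * (1 + |(k : ℝ)| + |(l : ℝ)|) ^ D * Real.exp (-(c * a)))
    {k : ℤ} (hk : k ≠ 0) (hck : mhat μ k ≠ 0) :
    ∃ δ : ℝ, 0 < δ ∧ ∀ ε : ℝ, 0 < ε → ∀ V : ℝ, ∃ (n : ℕ) (F : Finset (ℕ × ℕ)),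
      (∀ v ∈ F, v.1 ≤ n ∧ Strip p q ε v) ∧
        V * ((n : ℝ) + 1) ^ δ < ∑ v ∈ F, kap p q μ k v := by
  have hk0 : (0:ℝ) < |(k : ℝ)| := by
    rw [abs_pos]; exact_mod_cast hk
  have hρ : 0 < (2 * |(k : ℝ)|)⁻¹ := by positivity
  obtain ⟨A, hA, hdb⟩ := doubling (μ := μ) hm hq hμm hρ hc hmix
  have hA1 : (1:ℝ) < A := by exact_mod_cast (by omega : 1 < A)
  have hlA : 0 < Real.log A := Real.log_pos hA1
  have hl : 0 < Real.log (3 / 2) := Real.log_pos (by norm_num)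
  set δ : ℝ := Real.log (3 / 2) / Real.log A with hδ
  have hδ0 : 0 < δ := by positivity
  have hAδ : (A : ℝ) ^ δ ≤ 3 / 2 := by
    rw [Real.rpow_def_of_pos (by linarith), hδ, mul_div_cancel₀ _ hlA.ne',
      Real.exp_log (by norm_num)]
  refine ⟨δ, hδ0, fun ε hε V => ?_⟩
  by_contra hcon
  push Not at hcon
  obtain ⟨C₁, hC₁, hgood⟩ := good_sets hp hq h hμp hμq hk hck hε hδ0.le (le_max_right V 0)
    (fun n F hF => (hcon n F hF).trans (by gcongr; exact le_max_left _ _))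
  obtain ⟨C₂, hC₂, hup⟩ := ent_upper (μ := μ) hq hρ hC₁ hδ0.le hgood
  exact no_double hq hρ hC₂ hup hA hAδ hdb

end Pool.Agent.H.MP_96e181_an.Mix
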