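import Mathlib
import Pool.Agent.H.MP_96e181_an.mix.Final

set_option autoImplicit false

open MeasureTheory

namespace Pool.Agent.H.MP_96e181_an.Mix.ExponentialMixing

/-- The Fourier coefficient `∫ e(kx) dμ(x)` of a measure on the circle. -/
noncomputable def coef (μ : Measure UnitAddCircle) (k : ℤ) : ℂ :=
  ∫ x : UnitAddCircle, (fourier k x : ℂ) ∂μ

/-- The pair `(a, b)` satisfies `a ≤ n` and `p ^ a` and `q ^ b` agree up to a factor `1 + ε`. -/
def Near (p q : ℕ) (ε : ℝ) (n : ℕ) (v : ℕ × ℕ) : Prop :=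
  v.1 ≤ n ∧ (p : ℝ) ^ v.1 ≤ (1 + ε) * (q : ℝ) ^ v.2 ∧ (q : ℝ) ^ v.2 ≤ (1 + ε) * (p : ℝ) ^ v.1

/-- Let `μ` be an atomless probability measure on the circle invariant under multiplication by
the multiplicatively independent integers `p` and `q`, for which multiplication by some `m ≥ 2`
is measure preserving and exponentially mixing on characters, with polynomial dependence on the
frequencies. Then `μ` is Lebesgue measure, or else, for every `k ≠ 0` with nonzero Fourier
coefficient, the sums of the mixed correlations of the `k`-th character along `p ^ a ≈ q ^ b`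
grow at least like a positive power of `n`. -/
theorem result :
    ∀ p q : ℕ, 2 ≤ p → 2 ≤ q →
      Irrational (Real.log (p : ℝ) / Real.log (q : ℝ)) →
      ∀ μ : Measure UnitAddCircle, IsProbabilityMeasure μ → NoAtoms μ →
        MeasurePreserving (fun x : UnitAddCircle => p • x) μ μ →
        MeasurePreserving (fun x : UnitAddCircle => q • x) μ μ →
        (∃ m : ℕ, 2 ≤ m ∧ MeasurePreserving (fun x : UnitAddCircle => m • x) μ μ ∧
          ∃ (C c : ℝ) (D : ℕ), 0 < c ∧ ∀ (k l : ℤ) (a : ℕ),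
            ‖coef μ (k * (m : ℤ) ^ a + l) - coef μ k * coef μ l‖ ≤
              C * (1 + |(k : ℝ)| + |(l : ℝ)|) ^ D * Real.exp (-(c * a))) →
        μ = (volume : Measure UnitAddCircle) ∨
          ∀ k : ℤ, k ≠ 0 → coef μ k ≠ 0 →
            ∃ δ : ℝ, 0 < δ ∧ ∀ ε : ℝ, 0 < ε → ∀ V : ℝ,
              ∃ (n : ℕ) (F : Finset (ℕ × ℕ)), (∀ v ∈ F, Near p q ε n v) ∧
                V * ((n : ℝ) + 1) ^ δ <
                  ∑ v ∈ F, ‖coef μ (k * ((p : ℤ) ^ v.1 - (q : ℤ) ^ v.2)) -
                    (‖coef μ k‖ : ℂ) ^ 2‖ := by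
  intro p q hp hq h μ hμ hna hμp hμq hmix
  haveI : NullSingletonClass μ := hna
  right
  intro k hk hck
  obtain ⟨m, hm, hμm, C, c, D, hc, hE⟩ := hmix
  obtain ⟨δ, hδ, H⟩ := Pool.Agent.H.MP_96e181_an.Mix.exp_mixing hp hq hm h hμp hμq hμm hc hE
    hk hck
  refine ⟨δ, hδ, fun ε hε V => ?_⟩
  obtain ⟨n, F, hF, hlt⟩ := H ε hε V
  refine ⟨n, F, hF, hlt.trans_le (le_of_eq ?_)⟩
  refine Finset.sum_congr rfl (fun v _ => ?_)
  rw [← Complex.mul_conj']
  rfl

end Pool.Agent.H.MP_96e181_an.Mix.ExponentialMixing
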